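import Pool.Agent.S5.E.V.R3
import Pool.Agent.S5.E.V4

/-!
# Mixed chains, block E: crude bounds at a vertex with three twists
-/

set_option autoImplicit false
set_option maxHeartbeats 4000000

namespace Pool.Agent.S5.E.V

open Real
open Pool.Agent.S3.NI
open Pool.Agent.S5.E.B2 (Rg)
open Pool.Agent.S3.E (al ph tt k2 s2 cc gg)

variable {R I ρ₁ β₁ p₁ r₁ ρ₂ β₂ p₂ r₂ : ℝ} {so so1 so2 : Bool}

/-- The bounds. -/
def KF (k f : ℕ) (x m : ℝ) : Prop :=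
  ((k : ℝ) / 1000) ^ 2 < (1 + x ^ 2)⁻¹ + m ^ 2 * (1 - m ^ 2)⁻¹ ∧ x * m < (f : ℝ) / 10000

/-- Two slots, the weak form. -/
theorem out3 (h : Vx ((3 : ℕ) : ℝ) R I ρ₁ β₁ p₁ r₁ ρ₂ β₂ p₂ r₂) (i₁ : In ρ₁ β₁) (i₂ : In ρ₂ β₂)
    (c₁ : 0 < cos r₁) (c₂ : 0 < cos r₂) (k₁ : Kd so1 rC ρ₁ β₁) (k₂ : Kd so2 rC ρ₂ β₂) :
    KF 530 7770 (tan R) (tanh I) ∧ ((so1 = false ∨ so2 = false) →
      KF 590 6270 (tan R) (tanh I)) := by
  have ha : (3 : ℝ) ≤ ((3 : ℕ) : ℝ) := by norm_num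
  have hX := mem_XM h i₁ i₂
  have hM := mem_MM h ha i₁ i₂
  have up : KF 590 6270 (tan R) (tanh I) → KF 530 7770 (tan R) (tanh I) := by
    rintro ⟨h1, h2⟩
    constructor
    · refine lt_trans ?_ h1
      norm_num
    · refine lt_trans h2 ?_
      norm_num
  cases so1
  · cases so2
    · have h1 : KF 590 6270 (tan R) (tanh I) := run2 d3_ok (Q := KF 590 6270)
        (fun X M hg x m hx hm => gKF_sound X M hg x m hx hm) r3AA h c₁ c₂ k₁ k₂ hX hM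
        (mem_UM h.sl₁.p0)
      exact ⟨up h1, fun _ => h1⟩
    · have h1 : KF 590 6270 (tan R) (tanh I) := run2 d3_ok (Q := KF 590 6270)
        (fun X M hg x m hx hm => gKF_sound X M hg x m hx hm) r3SA h.swap c₂ c₁ k₂ k₁ hX hM
        (mem_UM h.sl₂.p0)
      exact ⟨up h1, fun _ => h1⟩
  · cases so2
    · have h1 : KF 590 6270 (tan R) (tanh I) := run2 d3_ok (Q := KF 590 6270)
        (fun X M hg x m hx hm => gKF_sound X M hg x m hx hm) r3SA h c₁ c₂ k₁ k₂ hX hM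
        (mem_UM h.sl₁.p0)
      exact ⟨up h1, fun _ => h1⟩
    · have h1 : KF 530 7770 (tan R) (tanh I) := run2 d3_ok (Q := KF 530 7770)
        (fun X M hg x m hx hm => gKF_sound X M hg x m hx hm) r3SS h c₁ c₂ k₁ k₂ hX hM
        (mem_UM h.sl₁.p0)
      exact ⟨h1, fun h' => absurd h' (by simp)⟩

/-- One slot. -/
theorem out3E (h : Vx ((3 : ℕ) : ℝ) R I ρ₁ β₁ p₁ r₁ 0 β₂ p₂ r₂) (i₁ : In ρ₁ β₁) (i₂ : In 0 β₂)
    (c₁ : 0 < cos r₁) (k₁ : Kd so rC ρ₁ β₁) :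
    KF 525 7770 (tan R) (tanh I) ∧ (so = false → KF 590 6270 (tan R) (tanh I)) := by
  have ha : (3 : ℝ) ≤ ((3 : ℕ) : ℝ) := by norm_num
  have hX := mem_XM h i₁ i₂
  have hM := mem_MM h ha i₁ i₂
  cases so
  · have h1 : KF 590 6270 (tan R) (tanh I) := run1 d3_ok (Q := KF 590 6270)
      (fun X M hg x m hx hm => gKF_sound X M hg x m hx hm) r3EA h c₁ k₁ hX hM
    refine ⟨⟨?_, ?_⟩, fun _ => h1⟩
    · refine lt_trans ?_ h1.1
      norm_num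
    · refine lt_trans h1.2 ?_
      norm_num
  · have h1 : KF 525 7770 (tan R) (tanh I) := run1 d3_ok (Q := KF 525 7770)
      (fun X M hg x m hx hm => gKF_sound X M hg x m hx hm) r3ES h c₁ k₁ hX hM
    exact ⟨h1, fun h' => absurd h' (by simp)⟩

/-- One slot of kind `S`, second level. -/
theorem out3S (h : Vx ((3 : ℕ) : ℝ) R I ρ₁ β₁ p₁ r₁ 0 β₂ p₂ r₂) (i₁ : In ρ₁ β₁) (i₂ : In 0 β₂)
    (c₁ : 0 < cos r₁) (k₁ : Kd true rC5 ρ₁ β₁) :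
    (((530 : ℕ) : ℝ) / 1000) ^ 2 < (1 + tan R ^ 2)⁻¹ + tanh I ^ 2 * (1 - tanh I ^ 2)⁻¹ := by
  have ha : (3 : ℝ) ≤ ((3 : ℕ) : ℝ) := by norm_num
  have hX := mem_XM h i₁ i₂
  have hM := mem_MM h ha i₁ i₂
  exact run1 d3_ok (Q := fun x m => (((530 : ℕ) : ℝ) / 1000) ^ 2 <
    (1 + x ^ 2)⁻¹ + m ^ 2 * (1 - m ^ 2)⁻¹)
    (fun X M hg x m hx hm => gKG_sound X M hg x m hx hm) r3ES2 h c₁ k₁ hX hM

end Pool.Agent.S5.E.V
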