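import Pool.Agent.S5.E.V.Main

/-!
# Mixed chains, block E: box tests for `a = 3, 4, 5`, the data
-/

set_option autoImplicit false
set_option maxHeartbeats 4000000

namespace Pool.Agent.S5.E.V

open Real
open Pool.Agent.S3.NI
open Pool.Agent.S5.E.B2 (Rg th mem_th)
open Pool.Agent.S3.E (al ph tt k2 s2 cc gg al_pos al_lt)

theorem rx_nonneg (x : ℕ) : 0 ≤ rx x := by unfold rx; positivity

/-- `x - x³/3 ≤ arctan x`. -/
theorem arctan_ge3 {x : ℝ} (h : 0 ≤ x) : x - x ^ 3 / 3 ≤ arctan x := by
  have key : MonotoneOn (fun y : ℝ => arctan y - (y - y ^ 3 / 3)) (Set.Ici 0) := by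
    apply monotoneOn_of_deriv_nonneg (convex_Ici 0)
    · exact (continuous_arctan.sub (by fun_prop)).continuousOn
    · exact (differentiable_arctan.sub (by fun_prop)).differentiableOn
    · intro y hy
      have h1 : HasDerivAt (fun y : ℝ => arctan y - (y - y ^ 3 / 3))
          (1 / (1 + y ^ 2) - (1 - (3 : ℕ) * y ^ 2 * 1 / 3)) y :=
        (hasDerivAt_arctan y).sub ((hasDerivAt_id' y).sub (((hasDerivAt_id' y).pow 3).div_const 3))
      rw [h1.deriv]
      have h2 : 0 < 1 + y ^ 2 := by positivity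
      have e : 1 / (1 + y ^ 2) - (1 - (3 : ℕ) * y ^ 2 * 1 / 3) = y ^ 4 / (1 + y ^ 2) := by
        field_simp
        push_cast
        ring
      rw [e]
      positivity
  have h1 := key (Set.mem_Ici.2 le_rfl) (Set.mem_Ici.2 h) h
  simp only [arctan_zero] at h1
  norm_num at h1
  linarith

theorem sc_arctan (X : ℝ) : sin (arctan X) = X * cos (arctan X) ∧
    cos (arctan X) ^ 2 * (1 + X ^ 2) = 1 := by
  have h1 : sin (arctan X) = X * cos (arctan X) := by
    rw [← tan_mul_cos (cos_arctan_pos X).ne', tan_arctan]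
  refine ⟨h1, ?_⟩
  have := sin_sq_add_cos_sq (arctan X)
  rw [h1] at this
  linear_combination this

theorem tanh_dbl (x : ℝ) : tanh (2 * x) * (1 + tanh x ^ 2) = 2 * tanh x := by
  have h := tanh_sum x x
  rw [← two_mul x] at h
  linear_combination -h

theorem tanh_four (x : ℝ) : tanh (4 * x) * (1 + 6 * tanh x ^ 2 + (tanh x ^ 2) ^ 2) =
    4 * tanh x * (1 + tanh x ^ 2) := by
  have h1 := tanh_dbl x
  have h2 := tanh_dbl (2 * x)
  have e : 2 * (2 * x) = 4 * x := by ring
  rw [e] at h2
  have hp : 0 < 1 + tanh x ^ 2 := by positivity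
  have h3 : tanh (2 * x) = 2 * tanh x / (1 + tanh x ^ 2) := by
    rw [eq_div_iff hp.ne']
    exact h1
  rw [h3] at h2
  field_simp at h2
  linear_combination h2

theorem tanh_five (x : ℝ) : tanh (5 * x) * (1 + 10 * tanh x ^ 2 + 5 * (tanh x ^ 2) ^ 2) =
    tanh x * (5 + 10 * tanh x ^ 2 + (tanh x ^ 2) ^ 2) := by
  have h1 := tanh_four x
  have h2 := tanh_sum (4 * x) x
  have e : 4 * x + x = 5 * x := by ring
  rw [e] at h2
  have hp : 0 < 1 + 6 * tanh x ^ 2 + (tanh x ^ 2) ^ 2 := by positivity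
  have h3 : tanh (4 * x) = 4 * tanh x * (1 + tanh x ^ 2) / (1 + 6 * tanh x ^ 2 + (tanh x ^ 2) ^ 2) := by
    rw [eq_div_iff hp.ne']
    exact h1
  rw [h3] at h2
  field_simp at h2
  linear_combination -h2

theorem rx_le {x k : ℕ} (h : x ≤ k) : rx x ≤ rx k := by
  unfold rx
  exact div_le_div_of_nonneg_right (by exact_mod_cast h) (by norm_num)

/-! ### `a = 3` -/

def three : N := ⟨3221225472, 3221225472⟩
def five : N := ⟨5368709120, 5368709120⟩

theorem mem_three : Mem 3 three := by constructor <;> norm_num [three]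
theorem mem_five : Mem 5 five := by constructor <;> norm_num [five]

def d3 : AD where
  tq A := (A.mul (three.add A.sq)).mul (one.add (N.sm 3 A.sq)).inv
  sp x := Nat.mul (Nat.mul 3 x) 1152921504606846976
  sn x := Nat.mul (Nat.mul x x) x
  cp _ := 1237940039285380274899124224
  cn x := Nat.mul (Nat.mul 3 (Nat.mul x x)) 1073741824
  xm := 644245095
  xp := 1859720839
  xu := 10737418240

theorem d3_ok : d3.Ok 3 where
  a3 := le_rfl
  tq := by
    intro I A _ hA
    have h := tanh_three I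
    have hp : 0 < 1 + 3 * tanh I ^ 2 := by positivity
    have e : tanh (((3 : ℕ) : ℝ) * I) = tanh I * (3 + tanh I ^ 2) * (1 + ((3 : ℕ) : ℝ) * tanh I ^ 2)⁻¹ := by
      push_cast
      rw [← div_eq_mul_inv, eq_div_iff hp.ne', h]
      ring
    rw [e]
    exact (hA.mul (mem_three.add hA.sq)).mul ((mem_one.add (hA.sq.sm 3)).inv (ps_one_add _))
  s := by
    intro x
    obtain ⟨h1, h2⟩ := sc_arctan (rx x)
    have e : ((3 : ℕ) : ℝ) * arctan (rx x) = 3 * arctan (rx x) := by norm_num
    have e1 : ((d3.sp x : ℕ) : ℝ) = 3 * (x : ℝ) * 1152921504606846976 := by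
      show ((Nat.mul (Nat.mul 3 x) 1152921504606846976 : ℕ) : ℝ) = _
      rw [nmul, nmul]
      norm_num
    have e2 : ((d3.sn x : ℕ) : ℝ) = (x : ℝ) * x * x := by
      show ((Nat.mul (Nat.mul x x) x : ℕ) : ℝ) = _
      rw [nmul, nmul]
    have e3 : (x : ℝ) = 1073741824 * rx x := by unfold rx; ring
    rw [e, e1, e2, sin_three_mul, h1, e3]
    set X := rx x
    set c := cos (arctan X)
    linear_combination (-(1073741824 : ℝ) ^ 3 * 3 * X * c) * h2
  c := by
    intro x
    obtain ⟨h1, h2⟩ := sc_arctan (rx x)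
    have e : ((3 : ℕ) : ℝ) * arctan (rx x) = 3 * arctan (rx x) := by norm_num
    have e1 : ((d3.cp x : ℕ) : ℝ) = 1237940039285380274899124224 := by
      show ((1237940039285380274899124224 : ℕ) : ℝ) = _
      norm_num
    have e2 : ((d3.cn x : ℕ) : ℝ) = 3 * ((x : ℝ) * x) * 1073741824 := by
      show ((Nat.mul (Nat.mul 3 (Nat.mul x x)) 1073741824 : ℕ) : ℝ) = _
      rw [nmul, nmul, nmul]
      norm_num
    have e3 : (x : ℝ) = 1073741824 * rx x := by unfold rx; ring
    rw [e, e1, e2, cos_three_mul, e3]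
    set X := rx x
    set c := cos (arctan X)
    linear_combination ((1073741824 : ℝ) ^ 3 * 3 * c) * h2
  xm := by
    intro x hx
    have h1 : 0.6 ≤ rx x := by
      refine le_trans ?_ (rx_le hx)
      unfold rx
      norm_num [d3]
    have h2 := arctan_mono h1
    have h3 : (0.528 : ℝ) ≤ arctan 0.6 :=
      le_trans (by norm_num) (arctan_ge3 (x := 0.6) (by norm_num))
    have h4 := pi_lt_d4
    push_cast
    linarith
  xp := by
    intro x hx
    have h1 : rx x ≤ √3 := by
      refine (rx_le hx).trans ?_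
      apply le_sqrt_of_sq_le
      unfold rx
      norm_num [d3]
    have h2 := arctan_mono h1
    have h3 : arctan √3 = π / 3 := by
      rw [← tan_pi_div_three, arctan_tan (by linarith [pi_pos]) (by linarith [pi_pos])]
    push_cast
    linarith
  xu := by
    intro x _
    have := arctan_lt_pi_div_two (rx x)
    push_cast
    linarith

/-! ### `a = 4` -/

def d4 : AD where
  tq A := ((N.sm 4 A).mul (one.add A.sq)).mul ((one.add (N.sm 6 A.sq)).add A.sq.sq).inv
  sp x := Nat.mul (Nat.mul 4 x) 1237940039285380274899124224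
  sn x := Nat.mul (Nat.mul 4 (Nat.mul (Nat.mul x x) x)) 1073741824
  cp x := Nat.add 1329227995784915872903807060280344576 (Nat.mul (Nat.mul x x) (Nat.mul x x))
  cn x := Nat.mul (Nat.mul 6 (Nat.mul x x)) 1152921504606846976
  xm := 450971567
  xp := 1073741824
  xu := 2362232012

theorem d4_ok : d4.Ok 4 where
  a3 := by norm_num
  tq := by
    intro I A _ hA
    have h := tanh_four I
    have hp : 0 < 1 + 6 * tanh I ^ 2 + (tanh I ^ 2) ^ 2 := by positivity
    have e : tanh (((4 : ℕ) : ℝ) * I) = ((4 : ℕ) : ℝ) * tanh I * (1 + tanh I ^ 2) *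
        (1 + ((6 : ℕ) : ℝ) * tanh I ^ 2 + (tanh I ^ 2) ^ 2)⁻¹ := by
      push_cast
      rw [← div_eq_mul_inv, eq_div_iff hp.ne', h]
    rw [e]
    refine ((hA.sm 4).mul (mem_one.add hA.sq)).mul
      (((mem_one.add (hA.sq.sm 6)).add hA.sq.sq).inv ?_)
    rw [ps_iff]
    have := ps_iff.1 (ps_one_add (N.sm 6 A.sq))
    exact Nat.le_trans this (Nat.le_add_right _ _)
  s := by
    intro x
    obtain ⟨h1, h2⟩ := sc_arctan (rx x)
    have e : ((4 : ℕ) : ℝ) * arctan (rx x) = 2 * (2 * arctan (rx x)) := by push_cast; ring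
    have e1 : ((d4.sp x : ℕ) : ℝ) = 4 * (x : ℝ) * 1237940039285380274899124224 := by
      show ((Nat.mul (Nat.mul 4 x) 1237940039285380274899124224 : ℕ) : ℝ) = _
      rw [nmul, nmul]
      norm_num
    have e2 : ((d4.sn x : ℕ) : ℝ) = 4 * ((x : ℝ) * x * x) * 1073741824 := by
      show ((Nat.mul (Nat.mul 4 (Nat.mul (Nat.mul x x) x)) 1073741824 : ℕ) : ℝ) = _
      rw [nmul, nmul, nmul, nmul]
      norm_num
    have e3 : (x : ℝ) = 1073741824 * rx x := by unfold rx; ring
    rw [e, e1, e2, sin_two_mul, sin_two_mul, cos_two_mul, h1, e3]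
    set X := rx x
    set c := cos (arctan X)
    linear_combination ((1073741824 : ℝ) ^ 4 * 4 * X * c ^ 2) * h2
  c := by
    intro x
    obtain ⟨h1, h2⟩ := sc_arctan (rx x)
    have e : ((4 : ℕ) : ℝ) * arctan (rx x) = 2 * (2 * arctan (rx x)) := by push_cast; ring
    have e1 : ((d4.cp x : ℕ) : ℝ) = 1329227995784915872903807060280344576 +
        ((x : ℝ) * x) * (x * x) := by
      show ((Nat.add 1329227995784915872903807060280344576
        (Nat.mul (Nat.mul x x) (Nat.mul x x)) : ℕ) : ℝ) = _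
      rw [nadd, nmul, nmul]
      norm_num
    have e2 : ((d4.cn x : ℕ) : ℝ) = 6 * ((x : ℝ) * x) * 1152921504606846976 := by
      show ((Nat.mul (Nat.mul 6 (Nat.mul x x)) 1152921504606846976 : ℕ) : ℝ) = _
      rw [nmul, nmul, nmul]
      norm_num
    have e3 : (x : ℝ) = 1073741824 * rx x := by unfold rx; ring
    rw [e, e1, e2, cos_two_mul, cos_two_mul, e3]
    set X := rx x
    set c := cos (arctan X)
    linear_combination ((1073741824 : ℝ) ^ 4 * (-1 - c ^ 2 * (1 + X ^ 2) + 8 * c ^ 2)) * h2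
  xm := by
    intro x hx
    have h1 : 0.42 ≤ rx x := by
      refine le_trans ?_ (rx_le hx)
      unfold rx
      norm_num [d4]
    have h2 := arctan_mono h1
    have h3 : (0.3953 : ℝ) ≤ arctan 0.42 :=
      le_trans (by norm_num) (arctan_ge3 (x := 0.42) (by norm_num))
    have h4 := pi_lt_d4
    push_cast
    linarith
  xp := by
    intro x hx
    have h1 : rx x ≤ 1 := by
      refine (rx_le hx).trans ?_
      unfold rx
      norm_num [d4]
    have h2 := arctan_mono h1
    rw [arctan_one] at h2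
    push_cast
    linarith
  xu := by
    intro x hx
    have h1 : rx x ≤ 2.2 := by
      refine (rx_le hx).trans ?_
      unfold rx
      norm_num [d4]
    have h2 := arctan_mono h1
    have h3 := arctan_inv_of_pos (x := 2.2) (by norm_num)
    have h4 : (0.423 : ℝ) ≤ arctan (2.2)⁻¹ :=
      le_trans (by norm_num) (arctan_ge3 (x := (2.2)⁻¹) (by norm_num))
    have h5 := pi_lt_d4
    push_cast
    linarith

/-! ### `a = 5` -/

def d5 : AD where
  tq A := (A.mul ((five.add (N.sm 10 A.sq)).add A.sq.sq)).mul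
    ((one.add (N.sm 10 A.sq)).add (N.sm 5 A.sq.sq)).inv
  sp x := Nat.add (Nat.mul (Nat.mul 5 x) 1329227995784915872903807060280344576)
    (Nat.mul (Nat.mul (Nat.mul x x) (Nat.mul x x)) x)
  sn x := Nat.mul (Nat.mul 10 (Nat.mul (Nat.mul x x) x)) 1152921504606846976
  cp x := Nat.add 1427247692705959881058285969449495136382746624
    (Nat.mul (Nat.mul 5 (Nat.mul (Nat.mul x x) (Nat.mul x x))) 1073741824)
  cn x := Nat.mul (Nat.mul 10 (Nat.mul x x)) 1237940039285380274899124224
  xm := 354334802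
  xp := 780073435
  xu := 1342177280

theorem d5_ok : d5.Ok 5 where
  a3 := by norm_num
  tq := by
    intro I A _ hA
    have h := tanh_five I
    have hp : 0 < 1 + 10 * tanh I ^ 2 + 5 * (tanh I ^ 2) ^ 2 := by positivity
    have e : tanh (((5 : ℕ) : ℝ) * I) = tanh I * (5 + ((10 : ℕ) : ℝ) * tanh I ^ 2 +
        (tanh I ^ 2) ^ 2) *
        (1 + ((10 : ℕ) : ℝ) * tanh I ^ 2 + ((5 : ℕ) : ℝ) * (tanh I ^ 2) ^ 2)⁻¹ := by
      push_cast
      rw [← div_eq_mul_inv, eq_div_iff hp.ne', h]
    rw [e]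
    refine (hA.mul ((mem_five.add (hA.sq.sm 10)).add hA.sq.sq)).mul
      (((mem_one.add (hA.sq.sm 10)).add (hA.sq.sq.sm 5)).inv ?_)
    rw [ps_iff]
    have := ps_iff.1 (ps_one_add (N.sm 10 A.sq))
    exact Nat.le_trans this (Nat.le_add_right _ _)
  s := by
    intro x
    obtain ⟨h1, h2⟩ := sc_arctan (rx x)
    have e : ((5 : ℕ) : ℝ) * arctan (rx x) = 2 * (2 * arctan (rx x)) + arctan (rx x) := by
      push_cast; ring
    have e1 : ((d5.sp x : ℕ) : ℝ) = 5 * (x : ℝ) * 1329227995784915872903807060280344576 +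
        ((x : ℝ) * x) * (x * x) * x := by
      show ((Nat.add (Nat.mul (Nat.mul 5 x) 1329227995784915872903807060280344576)
        (Nat.mul (Nat.mul (Nat.mul x x) (Nat.mul x x)) x) : ℕ) : ℝ) = _
      rw [nadd, nmul, nmul, nmul, nmul, nmul]
      norm_num
    have e2 : ((d5.sn x : ℕ) : ℝ) = 10 * ((x : ℝ) * x * x) * 1152921504606846976 := by
      show ((Nat.mul (Nat.mul 10 (Nat.mul (Nat.mul x x) x)) 1152921504606846976 : ℕ) : ℝ) = _
      rw [nmul, nmul, nmul, nmul]
      norm_num
    have e3 : (x : ℝ) = 1073741824 * rx x := by unfold rx; ring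
    rw [e, e1, e2, sin_add, sin_two_mul, sin_two_mul, cos_two_mul, cos_two_mul, cos_two_mul, h1, e3]
    set X := rx x
    set c := cos (arctan X)
    linear_combination ((1073741824 : ℝ) ^ 5 * (X * c * ((11 - X ^ 2) * c ^ 2 - 1))) * h2
  c := by
    intro x
    obtain ⟨h1, h2⟩ := sc_arctan (rx x)
    have e : ((5 : ℕ) : ℝ) * arctan (rx x) = 2 * (2 * arctan (rx x)) + arctan (rx x) := by
      push_cast; ring
    have e1 : ((d5.cp x : ℕ) : ℝ) = 1427247692705959881058285969449495136382746624 +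
        5 * (((x : ℝ) * x) * (x * x)) * 1073741824 := by
      show ((Nat.add 1427247692705959881058285969449495136382746624
        (Nat.mul (Nat.mul 5 (Nat.mul (Nat.mul x x) (Nat.mul x x))) 1073741824) : ℕ) : ℝ) = _
      rw [nadd, nmul, nmul, nmul, nmul]
      norm_num
    have e2 : ((d5.cn x : ℕ) : ℝ) = 10 * ((x : ℝ) * x) * 1237940039285380274899124224 := by
      show ((Nat.mul (Nat.mul 10 (Nat.mul x x)) 1237940039285380274899124224 : ℕ) : ℝ) = _
      rw [nmul, nmul, nmul]
      norm_num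
    have e3 : (x : ℝ) = 1073741824 * rx x := by unfold rx; ring
    rw [e, e1, e2, cos_add, sin_two_mul, sin_two_mul, cos_two_mul, cos_two_mul, h1, e3]
    set X := rx x
    set c := cos (arctan X)
    linear_combination ((1073741824 : ℝ) ^ 5 * (c * ((7 - 5 * X ^ 2) * c ^ 2 - 1))) * h2
  xm := by
    intro x hx
    have h1 : 0.33 ≤ rx x := by
      refine le_trans ?_ (rx_le hx)
      unfold rx
      norm_num [d5]
    have h2 := arctan_mono h1
    have h3 : (0.318 : ℝ) ≤ arctan 0.33 :=
      le_trans (by norm_num) (arctan_ge3 (x := 0.33) (by norm_num))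
    have h4 := pi_lt_d4
    push_cast
    linarith
  xp := by
    intro x hx
    have h1 : rx x ^ 2 ≤ 0.52781 := by
      have h2 := rx_le hx
      have h3 := rx_nonneg x
      have h4 : rx d5.xp ≤ 0.7265 := by unfold rx; norm_num [d5]
      nlinarith
    obtain ⟨-, h2⟩ := sc_arctan (rx x)
    have h3 := cos_arctan_pos (rx x)
    by_contra hc
    push Not at hc
    push_cast at hc
    have h4 : cos (arctan (rx x)) < cos (π / 5) :=
      cos_lt_cos_of_nonneg_of_le_pi (by positivity) (by linarith [arctan_lt_pi_div_two (rx x), pi_pos])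
        (by linarith)
    rw [cos_pi_div_five] at h4
    have h5 : √5 ^ 2 = (5 : ℝ) := sq_sqrt (by norm_num)
    have h6 : √5 ≤ (2.2361 : ℝ) := by
      rw [sqrt_le_left (by norm_num)]
      norm_num
    have h7 : cos (arctan (rx x)) ^ 2 < 0.65452 := by
      have h8 : (1 + √5) / 4 ≤ 0.809025 := by linarith
      have h9 : cos (arctan (rx x)) < 0.809025 := lt_of_lt_of_le h4 h8
      nlinarith
    nlinarith
  xu := by
    intro x hx
    have h1 : rx x ≤ 1.25 := by
      refine (rx_le hx).trans ?_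
      unfold rx
      norm_num [d5]
    have h2 := arctan_mono h1
    have h3 := arctan_inv_of_pos (x := 1.25) (by norm_num)
    have h4 : (0.629 : ℝ) ≤ arctan (1.25)⁻¹ :=
      le_trans (by norm_num) (arctan_ge3 (x := (1.25)⁻¹) (by norm_num))
    have h5 := pi_lt_d4
    push_cast
    linarith

end Pool.Agent.S5.E.V
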