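import Pool.Agent.S5.E.V3E
import Pool.Agent.S5.E.B2.Base

/-!
# Mixed chains, block E: box tests for `a ≥ 3`, interval arithmetic

Variables `x = tan R`, `m = tanh I`, `u = tanh p₁`.
-/

set_option autoImplicit false
set_option maxHeartbeats 4000000

namespace Pool.Agent.S5.E.V

open Real
open Pool.Agent.S3.NI
open Pool.Agent.S5.E.B2 (th mem_th mn_cases mx_mem mn_mem)
open Pool.Agent.S3.E (al ph tt k2 s2 cc gg)

def pt (n : ℕ) : N := ⟨n, n⟩

theorem mem_pt (n : ℕ) : Mem ((n : ℝ) / 1073741824) (pt n) := by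
  constructor
  · show (n : ℝ) ≤ _
    linarith
  · show _ ≤ (n : ℝ)
    linarith

section

variable {x y : ℝ} {A B : N}

theorem lo_le (h : Mem x A) : (A.lo : ℝ) / 1073741824 ≤ x := by
  have := h.1
  rw [div_le_iff₀ (by norm_num)]
  exact this

theorem le_hi (h : Mem x A) : x ≤ (A.hi : ℝ) / 1073741824 := by
  have := h.2
  rw [le_div_iff₀ (by norm_num)]
  exact this

theorem mem_of {x : ℝ} {A : N} (h1 : (A.lo : ℝ) / 1073741824 ≤ x) (h2 : x ≤ (A.hi : ℝ) / 1073741824) :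
    Mem x A := by
  rw [div_le_iff₀ (by norm_num)] at h1
  rw [le_div_iff₀ (by norm_num)] at h2
  exact ⟨h1, h2⟩

theorem mem_mono {x y z : ℝ} {A B : N} (h1 : Mem y A) (h2 : Mem z B) (hy : y ≤ x) (hz : x ≤ z) :
    Mem x ⟨A.lo, B.hi⟩ := by
  have k1 := lo_le h1
  have k2 := le_hi h2
  exact mem_of (k1.trans hy) (hz.trans k2)

theorem ps_one_add (B : N) : (one.add B).ps = true := by
  unfold N.ps
  rw [Nat.ble_eq]
  show 1 ≤ Nat.add 1073741824 B.lo
  exact Nat.le_trans (by norm_num) (Nat.le_add_right _ _)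

theorem ps_two_add (B : N) : (two.add B).ps = true := by
  unfold N.ps
  rw [Nat.ble_eq]
  show 1 ≤ Nat.add 2147483648 B.lo
  exact Nat.le_trans (by norm_num) (Nat.le_add_right _ _)

theorem ps_iff {A : N} : A.ps = true ↔ 1 ≤ A.lo := by
  unfold N.ps
  rw [Nat.ble_eq]

end

/-! ### Square roots -/

def nw : ℕ → ℕ → ℕ → ℕ
  | 0, _, g => g
  | k + 1, n, g => nw k n (Nat.div (Nat.add g (Nat.div n g)) 2)

def sq2 (q n : ℕ) : ℕ := bif Nat.ble (Nat.mul q q) n then q else 0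
def sq1 (g n : ℕ) : ℕ := bif Nat.ble (Nat.mul g g) n then g else sq2 (Nat.div n g) n

/-- lower bound of the square root. -/
def sqd (n : ℕ) : ℕ := sq1 (nw 7 n 1073741824) n

def sq3 (g n : ℕ) : ℕ := bif Nat.ble n (Nat.mul g g) then g else Nat.succ n

/-- upper bound of the square root. -/
def squ (n : ℕ) : ℕ := sq3 (Nat.succ (nw 7 n 1073741824)) n

theorem sqd_sq (n : ℕ) : sqd n * sqd n ≤ n := by
  have h2 : ∀ q n : ℕ, sq2 q n * sq2 q n ≤ n := by
    intro q n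
    unfold sq2
    rcases h : Nat.ble (Nat.mul q q) n with _ | _
    · simp
    · rw [Nat.ble_eq] at h
      exact h
  have h1 : ∀ q n : ℕ, sq1 q n * sq1 q n ≤ n := by
    intro q n
    unfold sq1
    rcases h : Nat.ble (Nat.mul q q) n with _ | _
    · exact h2 _ _
    · rw [Nat.ble_eq] at h
      exact h
  exact h1 _ _

theorem squ_sq (n : ℕ) : n ≤ squ n * squ n := by
  have h1 : ∀ q n : ℕ, n ≤ sq3 q n * sq3 q n := by
    intro q n
    unfold sq3
    rcases h : Nat.ble n (Nat.mul q q) with _ | _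
    · show n ≤ (n + 1) * (n + 1)
      nlinarith
    · rw [Nat.ble_eq] at h
      exact h
  exact h1 _ _

/-! ### `|tan z|²` and `T` -/

def t2q (A B : N) : N := (A.add B).mul (one.add (A.mul B)).inv

theorem mem_t2q {X M : ℝ} {A B : N} (h1 : Mem X A) (h2 : Mem M B) :
    Mem ((X + M) / (1 + X * M)) (t2q A B) := by
  rw [div_eq_mul_inv]
  exact (h1.add h2).mul ((mem_one.add (h1.mul h2)).inv (ps_one_add _))

def t2N (X M : N) : N :=
  ⟨mn (t2q (pt X.lo).sq (pt M.lo).sq).lo (t2q (pt X.lo).sq (pt M.hi).sq).lo,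
    mx (t2q (pt X.hi).sq (pt M.lo).sq).hi (t2q (pt X.hi).sq (pt M.hi).sq).hi⟩

private theorem t2f_mono {X Y M : ℝ} (h : X ≤ Y) (hX : 0 ≤ X) (hM : 0 ≤ M) (hM1 : M ≤ 1) :
    (X + M) / (1 + X * M) ≤ (Y + M) / (1 + Y * M) := by
  have hY : 0 ≤ Y := hX.trans h
  rw [div_le_div_iff₀ (by positivity) (by positivity)]
  have : 0 ≤ (Y - X) * (1 - M ^ 2) := mul_nonneg (by linarith) (by nlinarith)
  nlinarith

private theorem t2f_le {X M M₀ M₁ : ℝ} (hX : 0 ≤ X) (h0 : 0 ≤ M₀) (h1 : M₀ ≤ M) (h2 : M ≤ M₁) :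
    (X + M₀) / (1 + X * M₀) ≤ (X + M) / (1 + X * M) ∨
      (X + M₁) / (1 + X * M₁) ≤ (X + M) / (1 + X * M) := by
  have hM : 0 ≤ M := h0.trans h1
  have hM1 : 0 ≤ M₁ := hM.trans h2
  rcases le_total X 1 with hX1 | hX1
  · left
    rw [div_le_div_iff₀ (by positivity) (by positivity)]
    have : 0 ≤ (M - M₀) * (1 - X ^ 2) := mul_nonneg (by linarith) (by nlinarith)
    nlinarith
  · right
    rw [div_le_div_iff₀ (by positivity) (by positivity)]
    have : 0 ≤ (M₁ - M) * (X ^ 2 - 1) := mul_nonneg (by linarith) (by nlinarith)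
    nlinarith

private theorem t2f_ge {X M M₀ M₁ : ℝ} (hX : 0 ≤ X) (h0 : 0 ≤ M₀) (h1 : M₀ ≤ M) (h2 : M ≤ M₁) :
    (X + M) / (1 + X * M) ≤ (X + M₀) / (1 + X * M₀) ∨
      (X + M) / (1 + X * M) ≤ (X + M₁) / (1 + X * M₁) := by
  have hM : 0 ≤ M := h0.trans h1
  have hM1 : 0 ≤ M₁ := hM.trans h2
  rcases le_total X 1 with hX1 | hX1
  · right
    rw [div_le_div_iff₀ (by positivity) (by positivity)]
    have : 0 ≤ (M₁ - M) * (1 - X ^ 2) := mul_nonneg (by linarith) (by nlinarith)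
    nlinarith
  · left
    rw [div_le_div_iff₀ (by positivity) (by positivity)]
    have : 0 ≤ (M - M₀) * (X ^ 2 - 1) := mul_nonneg (by linarith) (by nlinarith)
    nlinarith

theorem cast_mn_le {a b : ℕ} {y : ℝ} (h : (a : ℝ) ≤ y ∨ (b : ℝ) ≤ y) : ((mn a b : ℕ) : ℝ) ≤ y := by
  obtain ⟨h1, h2⟩ := mn_le (a := a) (b := b)
  rcases h with h | h
  · exact le_trans (by exact_mod_cast h1) h
  · exact le_trans (by exact_mod_cast h2) h

theorem le_cast_mx {a b : ℕ} {y : ℝ} (h : y ≤ (a : ℝ) ∨ y ≤ (b : ℝ)) : y ≤ ((mx a b : ℕ) : ℝ) := by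
  obtain ⟨h1, h2⟩ := le_mx (a := a) (b := b)
  rcases h with h | h
  · exact h.trans (by exact_mod_cast h1)
  · exact h.trans (by exact_mod_cast h2)

theorem mem_t2N {x m : ℝ} {X M : N} (hx : Mem x X) (hm : Mem m M) (hm1 : m ≤ 1) :
    Mem ((x ^ 2 + m ^ 2) / (1 + x ^ 2 * m ^ 2)) (t2N X M) := by
  have hx0 := hx.nonneg
  have hm0 := hm.nonneg
  have x0 := lo_le hx
  have x1 := le_hi hx
  have m0 := lo_le hm
  have m1 := le_hi hm
  set x₀ : ℝ := (X.lo : ℝ) / 1073741824 with hx₀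
  set x₁ : ℝ := (X.hi : ℝ) / 1073741824 with hx₁
  set m₀ : ℝ := (M.lo : ℝ) / 1073741824 with hm₀
  set m₁ : ℝ := (M.hi : ℝ) / 1073741824 with hm₁
  have p0 : (0 : ℝ) ≤ x₀ := by positivity
  have q0 : (0 : ℝ) ≤ m₀ := by positivity
  have X0 : Mem (x₀ ^ 2) (pt X.lo).sq := (mem_pt _).sq
  have X1 : Mem (x₁ ^ 2) (pt X.hi).sq := (mem_pt _).sq
  have M0 : Mem (m₀ ^ 2) (pt M.lo).sq := (mem_pt _).sq
  have M1 : Mem (m₁ ^ 2) (pt M.hi).sq := (mem_pt _).sq
  have a1 : x₀ ^ 2 ≤ x ^ 2 := pow_le_pow_left₀ p0 x0 2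
  have a2 : x ^ 2 ≤ x₁ ^ 2 := pow_le_pow_left₀ hx0 x1 2
  have a3 : m₀ ^ 2 ≤ m ^ 2 := pow_le_pow_left₀ q0 m0 2
  have a4 : m ^ 2 ≤ m₁ ^ 2 := pow_le_pow_left₀ hm0 m1 2
  have a5 : m ^ 2 ≤ 1 := by nlinarith
  have b1 := t2f_mono a1 (sq_nonneg x₀) (sq_nonneg m) a5
  have b2 := t2f_mono a2 (sq_nonneg x) (sq_nonneg m) a5
  constructor
  · show ((mn _ _ : ℕ) : ℝ) ≤ _
    apply cast_mn_le
    rcases t2f_le (sq_nonneg x₀) (sq_nonneg m₀) a3 a4 with h | h
    · left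
      refine (mem_t2q X0 M0).1.trans (mul_le_mul_of_nonneg_right (h.trans b1) (by norm_num))
    · right
      refine (mem_t2q X0 M1).1.trans (mul_le_mul_of_nonneg_right (h.trans b1) (by norm_num))
  · show _ ≤ ((mx _ _ : ℕ) : ℝ)
    apply le_cast_mx
    rcases t2f_ge (sq_nonneg x₁) (sq_nonneg m₀) a3 a4 with h | h
    · left
      refine le_trans (mul_le_mul_of_nonneg_right (b2.trans h) (by norm_num)) (mem_t2q X1 M0).2
    · right
      refine le_trans (mul_le_mul_of_nonneg_right (b2.trans h) (by norm_num)) (mem_t2q X1 M1).2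

theorem tt_eq {R I : ℝ} (h : 0 < R) (h' : R < π / 2) :
    tt R I ^ 2 = (tan R ^ 2 + tanh I ^ 2) / (1 + tan R ^ 2 * tanh I ^ 2) := by
  have h1 := t_xm (I := I) h h'
  rw [mul_pow] at h1
  have h2 : 0 < 1 + tan R ^ 2 * tanh I ^ 2 := by positivity
  rw [eq_div_iff h2.ne']
  exact h1

/-- `m / (1 - m²)` -/
def hm (A : N) : N := A.mul (one.sub A.sq).inv

theorem mem_hm {m : ℝ} {A : N} (h : Mem m A) (hp : (one.sub A.sq).ps = true) (h1 : m ≤ 1) :
    Mem (m / (1 - m ^ 2)) (hm A) := by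
  have h0 := h.nonneg
  rw [div_eq_mul_inv]
  exact h.mul ((mem_one.sub h.sq (by nlinarith)).inv hp)

theorem hm_mono {m n : ℝ} (h0 : 0 ≤ m) (h : m ≤ n) (h1 : n < 1) :
    m / (1 - m ^ 2) ≤ n / (1 - n ^ 2) := by
  have h2 : 0 < 1 - m ^ 2 := by nlinarith
  have h3 : 0 < 1 - n ^ 2 := by nlinarith
  rw [div_le_div_iff₀ h2 h3]
  have hn : 0 ≤ n := h0.trans h
  have : 0 ≤ (n - m) * (1 + m * n) := mul_nonneg (by linarith) (by positivity)
  nlinarith

theorem ps_sub_pt {n k : ℕ} (h : n ≤ k) (hp : (one.sub (pt k).sq).ps = true) :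
    (one.sub (pt n).sq).ps = true := by
  rw [ps_iff] at hp ⊢
  have hp' : 1 ≤ Nat.sub 1073741824 (Nat.succ (Nat.div (Nat.mul k k) 1073741824)) := hp
  show 1 ≤ Nat.sub 1073741824 (Nat.succ (Nat.div (Nat.mul n n) 1073741824))
  have h1 : Nat.div (Nat.mul n n) 1073741824 ≤ Nat.div (Nat.mul k k) 1073741824 :=
    Nat.div_le_div_right (Nat.mul_le_mul h h)
  have e : ∀ a b : ℕ, Nat.sub a b = a - b := fun _ _ => rfl
  rw [e] at hp' ⊢
  omega

theorem lo_le_hi {x : ℝ} {A : N} (h : Mem x A) : A.lo ≤ A.hi := by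
  have := h.1.trans h.2
  exact_mod_cast this

theorem pt_lt_one {n : ℕ} (hp : (one.sub (pt n).sq).ps = true) : (n : ℝ) / 1073741824 < 1 := by
  rw [ps_iff] at hp
  have hp' : 1 ≤ Nat.sub 1073741824 (Nat.succ (Nat.div (Nat.mul n n) 1073741824)) := hp
  rw [div_lt_one (by norm_num)]
  have e : ∀ a b : ℕ, Nat.sub a b = a - b := fun _ _ => rfl
  rw [e] at hp'
  have h1 : Nat.div (Nat.mul n n) 1073741824 < 1073741824 := by omega
  have h2 : n * n < 1073741824 * 1073741824 := by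
    have h3 := Nat.lt_mul_div_succ (Nat.mul n n) (show 0 < 1073741824 by norm_num)
    have h4 : 1073741824 * (Nat.mul n n / 1073741824 + 1) ≤ 1073741824 * 1073741824 :=
      Nat.mul_le_mul_left _ h1
    exact lt_of_lt_of_le h3 h4
  have h5 : n < 1073741824 := by
    by_contra hc
    push Not at hc
    have := Nat.mul_le_mul hc hc
    omega
  exact_mod_cast h5

def hN (M : N) : N := ⟨(hm (pt M.lo)).lo, (hm (pt M.hi)).hi⟩

theorem mem_hN {m : ℝ} {M : N} (h : Mem m M) (hp : (one.sub (pt M.hi).sq).ps = true) :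
    Mem (m / (1 - m ^ 2)) (hN M) := by
  have h1 := lo_le h
  have h2 := le_hi h
  have h3 := pt_lt_one hp
  have hp0 := ps_sub_pt (lo_le_hi h) hp
  have h4 := pt_lt_one hp0
  have h0 : (0 : ℝ) ≤ (M.lo : ℝ) / 1073741824 := by positivity
  exact mem_mono (mem_hm (mem_pt _) hp0 h4.le) (mem_hm (mem_pt _) hp h3.le)
    (hm_mono h0 h1 (by linarith)) (hm_mono h.nonneg h2 h3)

/-- `T` -/
def TN (X M : N) : N := (hN M).mul (two.add ((X.ad one).sq.mul X.inv))

theorem TT_eq {R I : ℝ} (h : 0 < R) (h' : R < π / 2) :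
    TT R I = tanh I / (1 - tanh I ^ 2) * (2 + (tan R - 1) ^ 2 * (tan R)⁻¹) := by
  have h1 := T_xm (I := I) h h'
  have hx := tan_pos' h h'
  have hm1 : tanh I ^ 2 < 1 := by
    have := tanh_lt_one I
    have := neg_one_lt_tanh I
    nlinarith
  have h2 : 0 < 1 - tanh I ^ 2 := by linarith
  have h3 : TT R I * (tan R ^ 2 * (1 - tanh I ^ 2)) = tan R * tanh I * (1 + tan R ^ 2) := by
    rw [← h1]
    ring
  have h4 : 0 < tan R ^ 2 * (1 - tanh I ^ 2) := by positivity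
  rw [← eq_div_iff h4.ne'] at h3
  rw [h3]
  field_simp
  ring

theorem mem_TN {R I : ℝ} {X M : N} (h : 0 < R) (h' : R < π / 2) (hx : Mem (tan R) X)
    (hm : Mem (tanh I) M) (hpX : X.ps = true) (hp : (one.sub (pt M.hi).sq).ps = true) :
    Mem (TT R I) (TN X M) := by
  rw [TT_eq h h']
  exact (mem_hN hm hp).mul (mem_two.add ((hx.ad mem_one).sq_abs.mul (hx.inv hpX)))

/-! ### Inverse hyperbolic tangent -/

noncomputable def ath (x : ℝ) : ℝ := log ((1 + x) / (1 - x)) / 2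

theorem tanh_ath {x : ℝ} (h0 : -1 < x) (h1 : x < 1) : tanh (ath x) = x := by
  have h2 : 0 < (1 + x) / (1 - x) := div_pos (by linarith) (by linarith)
  have h3 : exp (ath x) * exp (ath x) = (1 + x) / (1 - x) := by
    rw [← exp_add]
    unfold ath
    rw [add_halves, exp_log h2]
  rw [tanh_eq_sinh_div_cosh, sinh_eq, cosh_eq, exp_neg]
  have h4 : exp (ath x) ≠ 0 := (exp_pos _).ne'
  set e := exp (ath x) with he
  have h5 : 1 - x ≠ 0 := by linarith
  have h6 : e ^ 2 * (1 - x) = 1 + x := by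
    rw [sq, h3, div_mul_cancel₀ _ h5]
  have h7 : e ^ 2 + 1 ≠ 0 := by positivity
  field_simp
  linear_combination h6

theorem le_of_tanh_le {x y : ℝ} (h : tanh x ≤ tanh y) : x ≤ y := by
  by_contra hc
  push Not at hc
  have h1 : tanh y < tanh x := by
    rw [tanh_eq_sinh_div_cosh, tanh_eq_sinh_div_cosh, div_lt_div_iff₀ (cosh_pos y) (cosh_pos x)]
    have h1 : 0 < sinh (x - y) := sinh_pos_iff.2 (by linarith)
    rw [sinh_sub] at h1
    linarith
  linarith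

/-! ### The second variable `tanh p₂` -/

/-- `(τ - u)/(1 - τ u)` for points -/
def vq (t u : ℕ) : N := ((pt t).sub (pt u)).mul (one.sub ((pt t).mul (pt u))).inv

theorem mem_vq {t u : ℕ} (h : u ≤ t) (h1 : (t : ℝ) / 1073741824 ≤ 1)
    (hp : (one.sub ((pt t).mul (pt u))).ps = true) :
    Mem (((t : ℝ) / 1073741824 - (u : ℝ) / 1073741824) /
      (1 - (t : ℝ) / 1073741824 * ((u : ℝ) / 1073741824))) (vq t u) := by
  rw [div_eq_mul_inv]
  have h2 : (u : ℝ) / 1073741824 ≤ (t : ℝ) / 1073741824 :=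
    div_le_div_of_nonneg_right (by exact_mod_cast h) (by norm_num)
  have h3 : (0 : ℝ) ≤ (u : ℝ) / 1073741824 := by positivity
  exact ((mem_pt _).sub (mem_pt _) h2).mul
    ((mem_one.sub ((mem_pt _).mul (mem_pt _)) (by nlinarith)).inv hp)

theorem vf_mono {s t u v : ℝ} (ht : s ≤ t) (ht1 : t < 1) (hu : v ≤ u) (hu0 : 0 ≤ v)
    (hu1 : u < 1) (hs0 : 0 ≤ s) : (s - u) / (1 - s * u) ≤ (t - v) / (1 - t * v) := by
  have h1 : 0 < 1 - s * u := by nlinarith
  have h2 : 0 < 1 - t * v := by nlinarith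
  rw [div_le_div_iff₀ h1 h2]
  have e : (t - v) * (1 - s * u) - (s - u) * (1 - t * v) =
      (t - s) * (1 - u * v) + (u - v) * (1 - s * t) := by ring
  have h3 : 0 ≤ (t - s) * (1 - u * v) := mul_nonneg (by linarith) (by nlinarith)
  have h4 : 0 ≤ (u - v) * (1 - s * t) := mul_nonneg (by linarith) (by nlinarith)
  linarith

theorem tanh_diff (x y : ℝ) : tanh (x - y) = (tanh x - tanh y) / (1 - tanh x * tanh y) := by
  have h := tanh_sum (x - y) y
  rw [sub_add_cancel] at h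
  have h1 := tanh_lt_one x
  have h2 := tanh_lt_one y
  have h3 := neg_one_lt_tanh x
  have h4 := neg_one_lt_tanh y
  have h5 : 0 < 1 - tanh x * tanh y := by nlinarith
  rw [eq_div_iff h5.ne']
  linarith

end Pool.Agent.S5.E.V
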