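import Pool.Agent.S5.E.V.Ad

/-!
# Mixed chains, block E: box tests for `a ≥ 3`, the statements
-/

set_option autoImplicit false
set_option maxHeartbeats 4000000

namespace Pool.Agent.S5.E.V

open Real
open Pool.Agent.S3.NI
open Pool.Agent.S5.E.B2 (Rg th mem_th)
open Pool.Agent.S3.E (al ph tt k2 s2 cc gg al_pos al_lt GeoX_k2 GeoX_cc GeoX_cos_pos one_lt_cc
  gg_lt_one neg_one_lt_gg)

/-- `x m < f / 10000` -/
def gFU (f : ℕ) (X M : N) : Bool := (X.mul M).lt (cst f 10000)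
def gFL (f : ℕ) (X M : N) : Bool := (cst f 10000).lt (X.mul M)
def kN (X M : N) : N := (one.add X.sq).inv.add (M.sq.mul (one.sub M.sq).inv)
def gKG (k : ℕ) (X M : N) : Bool := (one.sub M.sq).ps && (th k).sq.lt (kN X M)
def gKL (k : ℕ) (X M : N) : Bool := (one.sub M.sq).ps && (kN X M).lt (th k).sq

theorem gFU_sound {f : ℕ} (X M : N) (h : gFU f X M = true) (x m : ℝ) (hx : Mem x X) (hm : Mem m M) :
    x * m < (f : ℝ) / 10000 := by
  have h1 := mem_cst (n := f) (d := 10000) (by norm_num)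
  push_cast at h1
  exact (hx.mul hm).lt h1 h

theorem gFL_sound {f : ℕ} (X M : N) (h : gFL f X M = true) (x m : ℝ) (hx : Mem x X) (hm : Mem m M) :
    (f : ℝ) / 10000 < x * m := by
  have h1 := mem_cst (n := f) (d := 10000) (by norm_num)
  push_cast at h1
  exact h1.lt (hx.mul hm) h

theorem mem_kN {X M : N} {x m : ℝ} (hx : Mem x X) (hm : Mem m M) (hp : (one.sub M.sq).ps = true) :
    Mem ((1 + x ^ 2)⁻¹ + m ^ 2 * (1 - m ^ 2)⁻¹) (kN X M) := by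
  have m0 : Mem (max (1 - m ^ 2) 0) (one.sub M.sq) := Pool.Agent.S5.E.B2.Mem.subp mem_one hm.sq
  have hpos : 0 < 1 - m ^ 2 := by
    have := m0.pos hp
    by_contra hc
    push Not at hc
    rw [max_eq_right hc] at this
    exact lt_irrefl _ this
  rw [max_eq_left hpos.le] at m0
  exact ((mem_one.add hx.sq).inv (ps_one_add _)).add (hm.sq.mul (m0.inv hp))

theorem gKG_sound {k : ℕ} (X M : N) (h : gKG k X M = true) (x m : ℝ) (hx : Mem x X) (hm : Mem m M) :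
    ((k : ℝ) / 1000) ^ 2 < (1 + x ^ 2)⁻¹ + m ^ 2 * (1 - m ^ 2)⁻¹ := by
  unfold gKG at h
  rw [Bool.and_eq_true] at h
  exact (mem_th k).sq.lt (mem_kN hx hm h.1) h.2

theorem gKL_sound {k : ℕ} (X M : N) (h : gKL k X M = true) (x m : ℝ) (hx : Mem x X) (hm : Mem m M) :
    (1 + x ^ 2)⁻¹ + m ^ 2 * (1 - m ^ 2)⁻¹ < ((k : ℝ) / 1000) ^ 2 := by
  unfold gKL at h
  rw [Bool.and_eq_true] at h
  exact (mem_kN hx hm h.1).lt (mem_th k).sq h.2

theorem k2_xm {R I : ℝ} (h : 0 < R) (h' : R < π / 2) :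
    k2 R I = (1 + tan R ^ 2)⁻¹ + tanh I ^ 2 * (1 - tanh I ^ 2)⁻¹ := by
  have hc := GeoX_cos_pos h h'
  have h1 : (1 + tan R ^ 2)⁻¹ = cos R ^ 2 := by
    rw [tan_eq_sin_div_cos]
    have := sin_sq_add_cos_sq R
    field_simp
    linarith
  rw [h1, ← sinh_sq_eq, GeoX_k2, cosh_sq]
  ring

section dom

variable {a R I ρ₁ β₁ p₁ r₁ ρ₂ β₂ p₂ r₂ : ℝ}

theorem m_le (h : Vx a R I ρ₁ β₁ p₁ r₁ ρ₂ β₂ p₂ r₂) (ha : 3 ≤ a) (i₁ : In ρ₁ β₁)
    (i₂ : In ρ₂ β₂) : tanh I ≤ 0.672 := by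
  have h1 := (h.I3 ha i₁ i₂).1
  have h2 := tanh_pos h.I0
  have h3 : tanh I ^ 2 * (cc I + 1) = cc I - 1 := by
    have hc := cosh_pos I
    have h4 := cosh_sq I
    rw [GeoX_cc, tanh_eq_sinh_div_cosh]
    field_simp
    rw [h4]
    ring
  have h4 := one_lt_cc h.I0
  have h5 : tanh I ^ 2 ≤ 0.451 := by
    by_contra hc
    push Not at hc
    have := mul_lt_mul_of_pos_right hc (show 0 < cc I + 1 by linarith)
    linarith
  nlinarith

theorem x_le (h : Vx a R I ρ₁ β₁ p₁ r₁ ρ₂ β₂ p₂ r₂) (ha : 3 ≤ a) (i₁ : In ρ₁ β₁)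
    (i₂ : In ρ₂ β₂) : tan R ≤ 2.137 := by
  have h1 := h.tan_sq ha i₁ i₂
  have h2 := tan_pos' h.R0 h.R1
  nlinarith

/-- `x ≥ 0.454` or `a R > π / 2`. -/
theorem x_ge (h : Vx a R I ρ₁ β₁ p₁ r₁ ρ₂ β₂ p₂ r₂) (ha : 3 ≤ a) (i₁ : In ρ₁ β₁)
    (i₂ : In ρ₂ β₂) : 0.454 ≤ tan R ∨ π / 2 < a * R := by
  rcases le_or_gt 0.454 (tan R) with h1 | h1
  · exact Or.inl h1
  right
  have hx := tan_pos' h.R0 h.R1
  have hk := h.K3 ha i₁ i₂
  have h2 := tan_sq_gg h.R0 h.R1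
  have h3 := tt_cg (I := I) h.R0 h.R1
  have h4 := one_lt_cc h.I0
  have h5 := gg_lt_one h.R0 h.R1
  have h6 := neg_one_lt_gg h.R0 h.R1
  have h7 : cc I + gg R < 2 := by
    unfold k2 at hk
    linarith
  have hx2 : tan R ^ 2 < 0.2062 := by nlinarith
  have htt : tt R I ^ 2 ≤ 2 * tan R ^ 2 := by
    by_contra hc
    push Not at hc
    have e1 : 2 * tan R ^ 2 * (1 + gg R) = 2 * (1 - gg R) := by
      rw [← h2]
      ring
    have e2 : tt R I ^ 2 * (1 + gg R) ≤ tt R I ^ 2 * (cc I + gg R) :=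
      mul_le_mul_of_nonneg_left (by linarith) (sq_nonneg _)
    have e3 := mul_lt_mul_of_pos_right hc (show 0 < 1 + gg R by linarith)
    linarith
  have key : ∀ {ρ β p r : ℝ}, Slot R I ρ β p r → In ρ β → r < π / 4 := by
    intro ρ β p r hs hi
    have e1 := hs.sin_sq_le
    rw [mul_pow] at e1
    have e2 := mul_le_mul_of_nonneg_right (hi.sq hs.ρ0) (sq_nonneg (tt R I))
    have e3 : sin r ^ 2 < 1 / 2 := by linarith
    by_contra hc
    push Not at hc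
    have e4 : cos (2 * r) ≤ 0 :=
      cos_nonpos_of_pi_div_two_le_of_le (by linarith) (by linarith [hs.r1, pi_pos])
    rw [cos_two_mul] at e4
    have := sin_sq_add_cos_sq r
    linarith
  have := key h.sl₁ i₁
  have := key h.sl₂ i₂
  linarith [h.hR]

def XM : N := rng 454 2137 1000
def X4 : N := rng 392 2137 1000
def X5 : N := rng 314 2137 1000
def MM : N := rng 0 672 1000
def UM : N := rng 0 1000 1000

theorem mem_MM (h : Vx a R I ρ₁ β₁ p₁ r₁ ρ₂ β₂ p₂ r₂) (ha : 3 ≤ a) (i₁ : In ρ₁ β₁)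
    (i₂ : In ρ₂ β₂) : Mem (tanh I) MM := by
  apply mem_rng (by norm_num)
  · have := tanh_pos h.I0
    norm_num
    exact this.le
  · have := m_le h ha i₁ i₂
    norm_num at this ⊢
    linarith

theorem mem_UM {p : ℝ} (h : 0 ≤ p) : Mem (tanh p) UM := by
  apply mem_rng (by norm_num)
  · have := tanh_nonneg h
    norm_num
    exact this
  · have := tanh_lt_one p
    norm_num
    exact this.le

theorem mem_XM (h : Vx ((3 : ℕ) : ℝ) R I ρ₁ β₁ p₁ r₁ ρ₂ β₂ p₂ r₂) (i₁ : In ρ₁ β₁)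
    (i₂ : In ρ₂ β₂) : Mem (tan R) XM := by
  have ha : (3 : ℝ) ≤ ((3 : ℕ) : ℝ) := by norm_num
  have h1 := x_le h ha i₁ i₂
  apply mem_rng (by norm_num)
  · rcases x_ge h ha i₁ i₂ with h2 | h2
    · norm_num at h2 ⊢
      exact h2
    · have h3 := le_tan h.R0.le h.R1
      push_cast at h2
      have := pi_gt_d4
      norm_num
      linarith
  · norm_num at h1 ⊢
    exact h1

theorem mem_X4 (h : Vx ((4 : ℕ) : ℝ) R I ρ₁ β₁ p₁ r₁ ρ₂ β₂ p₂ r₂) (i₁ : In ρ₁ β₁)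
    (i₂ : In ρ₂ β₂) : Mem (tan R) X4 := by
  have ha : (3 : ℝ) ≤ ((4 : ℕ) : ℝ) := by norm_num
  have h1 := x_le h ha i₁ i₂
  apply mem_rng (by norm_num)
  · rcases x_ge h ha i₁ i₂ with h2 | h2
    · norm_num at h2 ⊢
      linarith
    · have h3 := le_tan h.R0.le h.R1
      push_cast at h2
      have := pi_gt_d4
      norm_num
      linarith
  · norm_num at h1 ⊢
    exact h1

theorem mem_X5 (h : Vx ((5 : ℕ) : ℝ) R I ρ₁ β₁ p₁ r₁ ρ₂ β₂ p₂ r₂) (i₁ : In ρ₁ β₁)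
    (i₂ : In ρ₂ β₂) : Mem (tan R) X5 := by
  have ha : (3 : ℝ) ≤ ((5 : ℕ) : ℝ) := by norm_num
  have h1 := x_le h ha i₁ i₂
  apply mem_rng (by norm_num)
  · rcases x_ge h ha i₁ i₂ with h2 | h2
    · norm_num at h2 ⊢
      linarith
    · have h3 := le_tan h.R0.le h.R1
      push_cast at h2
      have := pi_gt_d4
      norm_num
      linarith
  · norm_num at h1 ⊢
    exact h1

end dom

/-- The crude region of a slot. -/
def rC : Rg := ⟨490, 1100, 0, 1040, 0⟩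

theorem In.kd {so : Bool} {ρ β : ℝ} (hi : In ρ β) (h0 : ρ ≠ 0)
    (hs : 0 ≤ (if so then -β else β)) : Kd so rC ρ β := by
  have hρ : 0.49 ≤ ρ := by
    rcases hi.ρ0 with h | h
    · exact absurd h h0
    · exact h
  have e1 : ((rC.k0 : ℕ) : ℝ) / 1000 = 0.49 := by norm_num [rC]
  have e2 : ((rC.k1 : ℕ) : ℝ) / 1000 = 1.1 := by norm_num [rC]
  have e3 : ((rC.t0 : ℕ) : ℝ) / 1000 = 0 := by norm_num [rC]
  have e4 : ((rC.t1 : ℕ) : ℝ) / 1000 = 1.04 := by norm_num [rC]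
  refine ⟨?_, ?_, ?_, ?_⟩
  · rw [e1]
    exact hρ
  · rw [e2]
    exact hi.ρ1
  · rw [e3, arctan_zero]
    exact hs
  · rw [e4]
    have h1 := hi.βl
    have h2 := hi.βu
    split_ifs
    · linarith
    · exact h2

end Pool.Agent.S5.E.V
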