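import Pool.Agent.S5.E.V.Tst

/-!
# Mixed chains, block E: box tests for `a ≥ 3`, the main test
-/

set_option autoImplicit false
set_option maxHeartbeats 4000000

namespace Pool.Agent.S5.E.V

open Real
open Pool.Agent.S3.NI
open Pool.Agent.S5.E.B2 (Rg th mem_th)
open Pool.Agent.S3.E (al ph tt k2 s2 cc gg al_pos al_lt)

/-! ### `tanh (a I)` and `tanh p₂` -/

def tauN (d : AD) (M : N) : N := ⟨(d.tq (pt M.lo)).lo, (d.tq (pt M.hi)).hi⟩

theorem ath_nonneg {x : ℝ} (h0 : 0 ≤ x) (h1 : x < 1) : 0 ≤ ath x := by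
  apply le_of_tanh_le
  rw [tanh_ath (by linarith) h1, tanh_zero]
  exact h0

theorem mem_tauN {d : AD} {a : ℕ} (hd : d.Ok a) {I : ℝ} {M : N} (hm : Mem (tanh I) M)
    (hp : (one.sub (pt M.hi).sq).ps = true) : Mem (tanh (a * I)) (tauN d M) := by
  have h1 := lo_le hm
  have h2 := le_hi hm
  have h3 := pt_lt_one hp
  have h4 := pt_lt_one (ps_sub_pt (lo_le_hi hm) hp)
  have q0 := mem_pt M.lo
  have q1 := mem_pt M.hi
  set m₀ : ℝ := (M.lo : ℝ) / 1073741824 with hm₀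
  set m₁ : ℝ := (M.hi : ℝ) / 1073741824 with hm₁
  have p0 : (0 : ℝ) ≤ m₀ := by positivity
  have p1 : (0 : ℝ) ≤ m₁ := by positivity
  have ha : (0 : ℝ) ≤ a := Nat.cast_nonneg a
  have e0 := tanh_ath (x := m₀) (by linarith) h4
  have e1 := tanh_ath (x := m₁) (by linarith) h3
  have k0 := hd.tq (ath m₀) (pt M.lo) (ath_nonneg p0 h4) (by rw [e0]; exact q0)
  have k1 := hd.tq (ath m₁) (pt M.hi) (ath_nonneg p1 h3) (by rw [e1]; exact q1)
  refine mem_mono k0 k1 (tanh_mono (mul_le_mul_of_nonneg_left ?_ ha))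
    (tanh_mono (mul_le_mul_of_nonneg_left ?_ ha))
  · apply le_of_tanh_le
    rw [e0]
    exact h1
  · apply le_of_tanh_le
    rw [e1]
    exact h2

/-- lower bound of `tanh p₂` -/
def vl (t u : ℕ) : ℕ :=
  bif Nat.ble (Nat.succ u) t then
    (bif (one.sub ((pt t).mul (pt u))).ps then (vq t u).lo else 0)
  else 0

def vN (T U : N) : N := ⟨vl T.lo U.hi, (vq T.hi U.lo).hi⟩

theorem vl_sound {t u : ℕ} {τ y : ℝ} (ht : (t : ℝ) / 1073741824 ≤ τ) (hτ : τ < 1)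
    (hy0 : 0 ≤ y) (hyt : y ≤ τ) (hy : y ≤ (u : ℝ) / 1073741824) :
    ((vl t u : ℕ) : ℝ) / 1073741824 ≤ (τ - y) / (1 - τ * y) := by
  have h0 : 0 ≤ (τ - y) / (1 - τ * y) := div_nonneg (by linarith) (by nlinarith)
  unfold vl
  rcases h1 : Nat.ble (Nat.succ u) t with _ | _
  · rw [cond_false, z0]
    exact h0
  · rw [cond_true]
    rcases h2 : (one.sub ((pt t).mul (pt u))).ps with _ | _
    · rw [cond_false, z0]
      exact h0
    · rw [cond_true]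
      rw [Nat.ble_eq] at h1
      have h3 : (u : ℝ) / 1073741824 < (t : ℝ) / 1073741824 := by
        have : (u : ℝ) < t := by exact_mod_cast h1
        exact div_lt_div_of_pos_right this (by norm_num)
      have h4 := mem_vq (t := t) (u := u) (Nat.le_of_lt h1) (by linarith) h2
      refine (lo_le h4).trans ?_
      exact vf_mono ht hτ hy hy0 (by linarith) (by positivity)

theorem mem_vN {T U : N} {τ y : ℝ} (hT : Mem τ T) (hU : Mem y U) (hτ : τ < 1) (hyt : y ≤ τ)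
    (hp : (one.sub (pt T.hi).sq).ps = true)
    (hp2 : (one.sub ((pt T.hi).mul (pt U.lo))).ps = true) :
    Mem ((τ - y) / (1 - τ * y)) (vN T U) := by
  have t1 := le_hi hT
  have u0 := lo_le hU
  have ht1 := pt_lt_one hp
  apply mem_of
  · exact vl_sound (lo_le hT) hτ hU.nonneg hyt (le_hi hU)
  · have h1 : U.lo ≤ T.hi := by
      have : ((U.lo : ℕ) : ℝ) / 1073741824 ≤ ((T.hi : ℕ) : ℝ) / 1073741824 := by linarith
      have h2 := (div_le_div_iff_of_pos_right (show (0 : ℝ) < 1073741824 by norm_num)).1 this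
      exact_mod_cast h2
    have h4 := mem_vq h1 ht1.le hp2
    have h5 := le_hi h4
    have hy0 := hU.nonneg
    exact (vf_mono t1 ht1 u0 (by positivity) (by linarith) (by linarith)).trans h5

/-! ### One slot -/

def sA (so : Bool) (r : Rg) (T t U : N) : ℕ := fa (gla so r T U) (glb so r T U) (qL r U t)
def sB (so : Bool) (r : Rg) (T t U : N) : ℕ := fb (gla so r T U) (glb so r T U) (qL r U t)
def sC (so : Bool) (r : Rg) (T t U : N) : ℕ :=
  fc (guc so r T U) (gud so r T U) (qU r U t) (guh so r T) (hq r U t)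
def sD (so : Bool) (r : Rg) (T t U : N) : ℕ :=
  fd (guc so r T U) (gud so r T U) (qU r U t) (guh so r T) (hq r U t)
def sH (so : Bool) (r : Rg) (T t U : N) : Bool := guh so r T || hq r U t

def slT (so : Bool) (r : Rg) (T t U : N) (k : ℕ → ℕ → ℕ → ℕ → Bool → Bool) : Bool :=
  i1 r U t || (i2 r U t ||
    k (sA so r T t U) (sB so r T t U) (sC so r T t U) (sD so r T t U) (sH so r T t U))

theorem slT_sound {R I ρ β p r : ℝ} {so : Bool} {rg : Rg} {T t U : N}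
    (hs : Slot R I ρ β p r) (h : 0 < R) (h' : R < π / 2) (hI : 0 < I) (c : 0 < cos r)
    (k : Kd so rg ρ β) (hu : Mem (tanh p) U) (hT : Mem (TT R I) T) (ht : Mem (tt R I ^ 2) t)
    (hp : (one.sub (pt U.lo).sq).ps = true) {f : ℕ → ℕ → ℕ → ℕ → Bool → Bool}
    (hf : slT so rg T t U f = true) :
    ∃ (a b c d : ℕ) (e : Bool), f a b c d e = true ∧ rx a - rx b ≤ tan r ∧
      (e = true → tan r ≤ rx c - rx d) := by
  unfold slT at hf
  rw [Bool.or_eq_true, Bool.or_eq_true] at hf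
  rcases hf with h1 | h1 | h1
  · exact (i1_sound hs k ht hu hp h1).elim
  · exact (i2_sound hs c k ht hu h1).elim
  · rcases h2 : i2 rg U t with _ | _
    · refine ⟨_, _, _, _, _, h1, ?_, ?_⟩
      · exact fab_sound (gl_sound hs h h' hI c k hu hT) (qL_sound hs c k ht hu h2)
      · intro h3
        exact fcd_sound (fun e => gu_sound hs h h' hI c k hu hT e)
          (fun e => qU_sound hs c k ht hu hp e) h3
    · exact (i2_sound hs c k ht hu h2).elim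

/-! ### The final test -/

def fL (d : AD) (x a1 b1 a2 b2 : ℕ) : Bool :=
  ((Nat.ble b1 0 && Nat.ble b2 0) ||
    (Nat.ble d.xm x && (Nat.ble b1 1073741824 && Nat.ble b2 1073741824))) &&
  Nat.ble (Nat.succ (pL d a1 b1 a2 b2 x)) (pR d a1 b1 a2 b2 x)

def fU (d : AD) (x c1 d1 c2 d2 : ℕ) : Bool :=
  (Nat.ble x d.xp || (Nat.ble (Nat.mul c1 c2) 1152921504606846976 && Nat.ble x d.xu)) &&
  Nat.ble (Nat.succ (pR d c1 d1 c2 d2 x)) (pL d c1 d1 c2 d2 x)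

def fI (a b c d : ℕ) : Bool := Nat.ble (Nat.succ (Nat.add c b)) (Nat.add a d)

def fin (d : AD) (X : N) (a1 b1 c1 d1 : ℕ) (e1 : Bool) (a2 b2 c2 d2 : ℕ) (e2 : Bool) : Bool :=
  (e1 && fI a1 b1 c1 d1) || ((e2 && fI a2 b2 c2 d2) ||
    (fL d X.lo a1 b1 a2 b2 || (e1 && (e2 && fU d X.hi c1 d1 c2 d2))))

theorem fI_sound {a b c d : ℕ} {y : ℝ} (h1 : rx a - rx b ≤ y) (h2 : y ≤ rx c - rx d)
    (h : fI a b c d = true) : False := by
  unfold fI at h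
  rw [Nat.ble_eq] at h
  have h3 : ((Nat.add c b : ℕ) : ℝ) + 1 ≤ ((Nat.add a d : ℕ) : ℝ) := by exact_mod_cast h
  rw [nadd, nadd] at h3
  have h4 : rx a - rx b ≤ rx c - rx d := h1.trans h2
  unfold rx at h4
  rw [← sub_div, ← sub_div, div_le_div_iff_of_pos_right (by norm_num)] at h4
  linarith

theorem fin_sound {d : AD} {a : ℕ} (hd : d.Ok a) {X : N} {R r₁ r₂ : ℝ} (hX : Mem (tan R) X)
    (h0 : 0 < R) (h1 : R < π / 2) (p1 : -(π / 2) < r₁) (q1 : r₁ < π / 2) (p2 : -(π / 2) < r₂)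
    (q2 : r₂ < π / 2) (hR : a * R + r₁ + r₂ = π) {a1 b1 c1 d1 a2 b2 c2 d2 : ℕ} {e1 e2 : Bool}
    (l1 : rx a1 - rx b1 ≤ tan r₁) (u1 : e1 = true → tan r₁ ≤ rx c1 - rx d1)
    (l2 : rx a2 - rx b2 ≤ tan r₂) (u2 : e2 = true → tan r₂ ≤ rx c2 - rx d2)
    (hf : fin d X a1 b1 c1 d1 e1 a2 b2 c2 d2 e2 = true) : False := by
  unfold fin at hf
  rw [Bool.or_eq_true, Bool.or_eq_true, Bool.or_eq_true, Bool.and_eq_true, Bool.and_eq_true,
    Bool.and_eq_true, Bool.and_eq_true] at hf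
  rcases hf with hf | hf | hf | hf
  · exact fI_sound l1 (u1 hf.1) hf.2
  · exact fI_sound l2 (u2 hf.1) hf.2
  · unfold fL at hf
    rw [Bool.and_eq_true, Bool.or_eq_true, Bool.and_eq_true, Bool.and_eq_true, Bool.and_eq_true,
      Nat.ble_eq, Nat.ble_eq, Nat.ble_eq, Nat.ble_eq, Nat.ble_eq, Nat.ble_eq] at hf
    obtain ⟨hc, hlt⟩ := hf
    refine low_sound hd (r_ge_arctan p1 q1 l1) (r_ge_arctan p2 q2 l2)
      (r_ge_arctan (by linarith) h1 (lo_le hX)) hR ?_ hlt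
    rcases hc with hc | hc
    · left
      exact ⟨Nat.le_zero.1 hc.1, Nat.le_zero.1 hc.2⟩
    · right
      exact hc
  · obtain ⟨k1, k2, hf⟩ := hf
    unfold fU at hf
    rw [Bool.and_eq_true, Bool.or_eq_true, Bool.and_eq_true, Nat.ble_eq, Nat.ble_eq, Nat.ble_eq,
      Nat.ble_eq] at hf
    obtain ⟨hc, hlt⟩ := hf
    exact upp_sound hd (r_le_arctan p1 q1 (u1 k1)) (r_le_arctan p2 q2 (u2 k2))
      (r_le_arctan (by linarith) h1 (le_hi hX)) hR hc hlt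

/-- Two slots. -/
def tW (d : AD) (so1 so2 : Bool) (r1 r2 : Rg) (X t T U V : N) : Bool :=
  slT so1 r1 T t U (fun a1 b1 c1 d1 e1 => slT so2 r2 T t V (fun a2 b2 c2 d2 e2 =>
    fin d X a1 b1 c1 d1 e1 a2 b2 c2 d2 e2))

def tM2 (d : AD) (so1 so2 : Bool) (r1 r2 : Rg) (X M U τ : N) : Bool :=
  Nat.ble (Nat.succ τ.hi) U.lo ||
    ((one.sub (pt U.lo).sq).ps && ((one.sub (pt τ.hi).sq).ps &&
      ((one.sub ((pt τ.hi).mul (pt U.lo))).ps && ((one.sub (pt (vN τ U).lo).sq).ps &&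
        tW d so1 so2 r1 r2 X (t2N X M) (TN X M) U (vN τ U)))))

def tM (d : AD) (so1 so2 : Bool) (r1 r2 : Rg) (X M U : N) : Bool :=
  X.ps && ((one.sub (pt M.hi).sq).ps && tM2 d so1 so2 r1 r2 X M U (tauN d M))

/-- One slot. -/
def tE (d : AD) (so : Bool) (r : Rg) (X M : N) : Bool :=
  X.ps && ((one.sub (pt M.hi).sq).ps && ((one.sub (pt (tauN d M).lo).sq).ps &&
    slT so r (TN X M) (t2N X M) (tauN d M) (fun a1 b1 c1 d1 e1 =>
      fin d X a1 b1 c1 d1 e1 0 0 0 0 true)))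

section sound

variable {d : AD} {a : ℕ} {R I ρ₁ β₁ p₁ r₁ ρ₂ β₂ p₂ r₂ : ℝ} {so so1 so2 : Bool} {rg rg1 rg2 : Rg}
  {X M U : N}

theorem slot_lt {R I ρ β p r : ℝ} (hs : Slot R I ρ β p r) (c : 0 < cos r) :
    -(π / 2) < r ∧ r < π / 2 := by
  constructor
  · rcases hs.r0.eq_or_lt with h | h
    · rw [← h, cos_neg, cos_pi_div_two] at c
      exact absurd c (lt_irrefl _)
    · exact h
  · rcases hs.r1.eq_or_lt with h | h
    · rw [h, cos_pi_div_two] at c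
      exact absurd c (lt_irrefl _)
    · exact h

theorem tM_sound (hd : d.Ok a) (h : Vx (a : ℝ) R I ρ₁ β₁ p₁ r₁ ρ₂ β₂ p₂ r₂) (c₁ : 0 < cos r₁)
    (c₂ : 0 < cos r₂) (k₁ : Kd so1 rg1 ρ₁ β₁) (k₂ : Kd so2 rg2 ρ₂ β₂) (hX : Mem (tan R) X)
    (hM : Mem (tanh I) M) (hU : Mem (tanh p₁) U) (ht : tM d so1 so2 rg1 rg2 X M U = true) :
    False := by
  unfold tM tM2 at ht
  rw [Bool.and_eq_true, Bool.and_eq_true, Bool.or_eq_true, Bool.and_eq_true, Bool.and_eq_true,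
    Bool.and_eq_true, Bool.and_eq_true] at ht
  obtain ⟨g1, g2, ht⟩ := ht
  have hτ := mem_tauN hd hM g2
  have hp2 := h.sl₂.p0
  have hle : tanh p₁ ≤ tanh (a * I) := by
    apply tanh_mono
    rw [h.hI]
    linarith
  rcases ht with ht | ⟨g3, g4, g5, g6, ht⟩
  · rw [Nat.ble_eq] at ht
    have h1 := lo_le hU
    have h2 := le_hi hτ
    have h3 : ((tauN d M).hi : ℝ) + 1 ≤ (U.lo : ℝ) := by exact_mod_cast ht
    have h4 : ((tauN d M).hi : ℝ) / 1073741824 < (U.lo : ℝ) / 1073741824 :=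
      div_lt_div_of_pos_right (by linarith) (by norm_num)
    linarith
  · have hV : Mem (tanh p₂) (vN (tauN d M) U) := by
      have e : p₂ = a * I - p₁ := by linarith [h.hI]
      rw [e, tanh_diff]
      exact mem_vN hτ hU (tanh_lt_one _) hle g4 g5
    have hT := mem_TN h.R0 h.R1 hX hM g1 g2
    have htt : Mem (tt R I ^ 2) (t2N X M) := by
      rw [tt_eq h.R0 h.R1]
      exact mem_t2N hX hM (tanh_lt_one I).le
    obtain ⟨a1, b1, e1, d1, f1, ht, l1, u1⟩ :=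
      slT_sound h.sl₁ h.R0 h.R1 h.I0 c₁ k₁ hU hT htt g3 ht
    obtain ⟨a2, b2, e2, d2, f2, ht, l2, u2⟩ :=
      slT_sound h.sl₂ h.R0 h.R1 h.I0 c₂ k₂ hV hT htt g6 ht
    obtain ⟨s1, s2⟩ := slot_lt h.sl₁ c₁
    obtain ⟨s3, s4⟩ := slot_lt h.sl₂ c₂
    exact fin_sound hd hX h.R0 h.R1 s1 s2 s3 s4 h.hR l1 u1 l2 u2 ht

theorem tE_sound (hd : d.Ok a) (h : Vx (a : ℝ) R I ρ₁ β₁ p₁ r₁ 0 β₂ p₂ r₂) (c₁ : 0 < cos r₁)
    (k₁ : Kd so rg ρ₁ β₁) (hX : Mem (tan R) X) (hM : Mem (tanh I) M)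
    (ht : tE d so rg X M = true) : False := by
  unfold tE at ht
  rw [Bool.and_eq_true, Bool.and_eq_true, Bool.and_eq_true] at ht
  obtain ⟨g1, g2, g3, ht⟩ := ht
  obtain ⟨z1, z2⟩ := h.sl₂.zero
  have hτ := mem_tauN hd hM g2
  have hU : Mem (tanh p₁) (tauN d M) := by
    have e : p₁ = a * I := by linarith [h.hI]
    rw [e]
    exact hτ
  have hT := mem_TN h.R0 h.R1 hX hM g1 g2
  have htt : Mem (tt R I ^ 2) (t2N X M) := by
    rw [tt_eq h.R0 h.R1]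
    exact mem_t2N hX hM (tanh_lt_one I).le
  obtain ⟨a1, b1, e1, d1, f1, ht, l1, u1⟩ :=
    slT_sound h.sl₁ h.R0 h.R1 h.I0 c₁ k₁ hU hT htt g3 ht
  obtain ⟨s1, s2⟩ := slot_lt h.sl₁ c₁
  have e0 : rx 0 = 0 := by unfold rx; norm_num
  have hp := pi_pos
  refine fin_sound hd hX h.R0 h.R1 s1 s2 (by linarith) (by linarith) h.hR l1 u1 ?_ ?_ ht
  · rw [z2, tan_zero, e0, sub_zero]
  · intro _
    rw [z2, tan_zero, e0, sub_zero]

end sound

/-! ### The runs -/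

/-- Two slots: `Q (tan R) (tanh I)` for all vertices. -/
theorem run2 {d : AD} {a : ℕ} (hd : d.Ok a) {so1 so2 : Bool} {rg1 rg2 : Rg} {gt : N → N → Bool}
    {Q : ℝ → ℝ → Prop}
    (hgt : ∀ X M, gt X M = true → ∀ x m, Mem x X → Mem m M → Q x m) {w0 w1 w2 n : ℕ} {X M U : N}
    (hb : bbw3 (fun X M U => gt X M || tM d so1 so2 rg1 rg2 X M U) w0 w1 w2 n X M U = true)
    {R I ρ₁ β₁ p₁ r₁ ρ₂ β₂ p₂ r₂ : ℝ} (h : Vx (a : ℝ) R I ρ₁ β₁ p₁ r₁ ρ₂ β₂ p₂ r₂)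
    (c₁ : 0 < cos r₁) (c₂ : 0 < cos r₂) (k₁ : Kd so1 rg1 ρ₁ β₁) (k₂ : Kd so2 rg2 ρ₂ β₂)
    (hX : Mem (tan R) X) (hM : Mem (tanh I) M) (hU : Mem (tanh p₁) U) : Q (tan R) (tanh I) := by
  refine bbw3_sound (P := fun x m u => x = tan R → m = tanh I → u = tanh p₁ →
    Q (tan R) (tanh I)) ?_ w0 w1 w2 n X M U hb _ _ _ hX hM hU rfl rfl rfl
  intro X M U ht x m u hx hm hu e1 e2 e3
  subst e1 e2 e3
  rw [Bool.or_eq_true] at ht
  rcases ht with ht | ht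
  · exact hgt X M ht _ _ hx hm
  · exact (tM_sound hd h c₁ c₂ k₁ k₂ hx hm hu ht).elim

/-- One slot. -/
theorem run1 {d : AD} {a : ℕ} (hd : d.Ok a) {so : Bool} {rg : Rg} {gt : N → N → Bool}
    {Q : ℝ → ℝ → Prop}
    (hgt : ∀ X M, gt X M = true → ∀ x m, Mem x X → Mem m M → Q x m) {w0 w1 n : ℕ} {X M : N}
    (hb : bbw3 (fun X M _ => gt X M || tE d so rg X M) w0 w1 0 n X M one = true)
    {R I ρ₁ β₁ p₁ r₁ β₂ p₂ r₂ : ℝ} (h : Vx (a : ℝ) R I ρ₁ β₁ p₁ r₁ 0 β₂ p₂ r₂)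
    (c₁ : 0 < cos r₁) (k₁ : Kd so rg ρ₁ β₁)
    (hX : Mem (tan R) X) (hM : Mem (tanh I) M) : Q (tan R) (tanh I) := by
  refine bbw3_sound (P := fun x m _ => x = tan R → m = tanh I →
    Q (tan R) (tanh I)) ?_ w0 w1 0 n X M one hb _ _ 1 hX hM mem_one rfl rfl
  intro X M U ht x m u hx hm hu e1 e2
  subst e1 e2
  rw [Bool.or_eq_true] at ht
  rcases ht with ht | ht
  · exact hgt X M ht _ _ hx hm
  · exact (tE_sound hd h c₁ k₁ hx hm ht).elim

end Pool.Agent.S5.E.V
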