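import Pool.Agent.S5.E.V.Sl

/-!
# Mixed chains, block E: box tests for `a ≥ 3`, the norm of a slot
-/

set_option autoImplicit false
set_option maxHeartbeats 4000000

namespace Pool.Agent.S5.E.V

open Real
open Pool.Agent.S3.NI
open Pool.Agent.S5.E.B2 (Rg th mem_th)
open Pool.Agent.S3.E (al ph tt k2 s2 cc gg al_pos al_lt)

/-! ### The norm -/

def sPt (n : ℕ) : N := (pt n).sq.mul (one.sub (pt n).sq).inv
def kU (r : Rg) (t : N) : ℕ := ((th r.k1).sq.mul t).hi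
def kL (r : Rg) (t : N) : ℕ := ((th r.k0).sq.mul t).lo

/-- infeasible: the norm is too small -/
def i1 (r : Rg) (U t : N) : Bool := Nat.ble (Nat.succ (kU r t)) (sPt U.lo).lo
def wU (r : Rg) (U t : N) : ℕ := Nat.sub (kU r t) (sPt U.lo).lo
def wL (r : Rg) (U t : N) : ℕ :=
  bif (one.sub (pt U.hi).sq).ps then Nat.sub (kL r t) (sPt U.hi).hi else 0
def i2 (r : Rg) (U t : N) : Bool := Nat.ble 1073741824 (wL r U t)
def hq (r : Rg) (U t : N) : Bool := Nat.ble (Nat.succ (wU r U t)) 1073741824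
def qU (r : Rg) (U t : N) : ℕ :=
  squ (Nat.succ (Nat.div (Nat.mul 1152921504606846976 (wU r U t)) (Nat.sub 1073741824 (wU r U t))))
def qL (r : Rg) (U t : N) : ℕ :=
  sqd (Nat.div (Nat.mul 1152921504606846976 (wL r U t)) (Nat.sub 1073741824 (wL r U t)))

section norm

variable {R I ρ β p r : ℝ} {so : Bool} {rg : Rg} {t U : N}

theorem mem_sPt {n : ℕ} (hp : (one.sub (pt n).sq).ps = true) :
    Mem (((n : ℝ) / 1073741824) ^ 2 * (1 - ((n : ℝ) / 1073741824) ^ 2)⁻¹) (sPt n) := by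
  have h1 := pt_lt_one hp
  have h0 : (0 : ℝ) ≤ (n : ℝ) / 1073741824 := by positivity
  exact (mem_pt n).sq.mul ((mem_one.sub (mem_pt n).sq (by nlinarith)).inv hp)

theorem s_mono {u v : ℝ} (h0 : 0 ≤ u) (h : u ≤ v) (h1 : v < 1) :
    u ^ 2 * (1 - u ^ 2)⁻¹ ≤ v ^ 2 * (1 - v ^ 2)⁻¹ := by
  have h2 : 0 < 1 - u ^ 2 := by nlinarith
  have h3 : 0 < 1 - v ^ 2 := by nlinarith
  rw [← div_eq_mul_inv, ← div_eq_mul_inv, div_le_div_iff₀ h2 h3]
  have : u ^ 2 ≤ v ^ 2 := pow_le_pow_left₀ h0 h 2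
  nlinarith

theorem sinh_ge (hu : Mem (tanh p) U) (hp : (one.sub (pt U.lo).sq).ps = true) :
    (((sPt U.lo).lo : ℕ) : ℝ) / 1073741824 ≤ sinh p ^ 2 := by
  rw [sinh_sq_eq]
  exact (lo_le (mem_sPt hp)).trans (s_mono (by positivity) (lo_le hu) (tanh_lt_one p))

theorem sinh_le' (hu : Mem (tanh p) U) (hp : (one.sub (pt U.hi).sq).ps = true) :
    sinh p ^ 2 ≤ (((sPt U.hi).hi : ℕ) : ℝ) / 1073741824 := by
  rw [sinh_sq_eq]
  exact (s_mono hu.nonneg (le_hi hu) (pt_lt_one hp)).trans (le_hi (mem_sPt hp))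

theorem kU_sound (hs : Slot R I ρ β p r) (k : Kd so rg ρ β) (ht : Mem (tt R I ^ 2) t) :
    ρ ^ 2 * tt R I ^ 2 ≤ ((kU rg t : ℕ) : ℝ) / 1073741824 := by
  have h1 : ρ ^ 2 ≤ ((rg.k1 : ℝ) / 1000) ^ 2 := pow_le_pow_left₀ hs.ρ0 k.k1 2
  exact (mul_le_mul_of_nonneg_right h1 (sq_nonneg _)).trans (le_hi ((mem_th rg.k1).sq.mul ht))

theorem kL_sound (k : Kd so rg ρ β) (ht : Mem (tt R I ^ 2) t) :
    ((kL rg t : ℕ) : ℝ) / 1073741824 ≤ ρ ^ 2 * tt R I ^ 2 := by
  have h1 : ((rg.k0 : ℝ) / 1000) ^ 2 ≤ ρ ^ 2 := pow_le_pow_left₀ (by positivity) k.k0 2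
  exact (lo_le ((mem_th rg.k0).sq.mul ht)).trans (mul_le_mul_of_nonneg_right h1 (sq_nonneg _))

theorem i1_sound (hs : Slot R I ρ β p r) (k : Kd so rg ρ β) (ht : Mem (tt R I ^ 2) t)
    (hu : Mem (tanh p) U) (hp : (one.sub (pt U.lo).sq).ps = true) (hi : i1 rg U t = true) :
    False := by
  have h1 := kU_sound hs k ht
  have h2 := sinh_ge hu hp
  have h3 := hs.sinh_sq_le
  rw [mul_pow] at h3
  unfold i1 at hi
  rw [Nat.ble_eq] at hi
  have h4 : ((kU rg t : ℕ) : ℝ) + 1 ≤ (((sPt U.lo).lo : ℕ) : ℝ) := by exact_mod_cast hi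
  have h5 : ((kU rg t : ℕ) : ℝ) / 1073741824 < (((sPt U.lo).lo : ℕ) : ℝ) / 1073741824 :=
    div_lt_div_of_pos_right (by linarith) (by norm_num)
  linarith

theorem wL_sound (k : Kd so rg ρ β) (ht : Mem (tt R I ^ 2) t) (hu : Mem (tanh p) U)
    (h0 : 0 < wL rg U t) :
    ((wL rg U t : ℕ) : ℝ) / 1073741824 ≤ ρ ^ 2 * tt R I ^ 2 - sinh p ^ 2 := by
  unfold wL at h0 ⊢
  rcases hps : (one.sub (pt U.hi).sq).ps with _ | _
  · rw [hps] at h0
    simp at h0
  · rw [hps] at h0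
    simp only [cond_true] at h0 ⊢
    have h1 := kL_sound k ht
    have h2 := sinh_le' hu hps
    have e : ∀ a b : ℕ, Nat.sub a b = a - b := fun _ _ => rfl
    rw [e] at h0 ⊢
    rw [Nat.cast_sub (by omega), sub_div]
    linarith

theorem wU_sound (hs : Slot R I ρ β p r) (k : Kd so rg ρ β) (ht : Mem (tt R I ^ 2) t)
    (hu : Mem (tanh p) U) (hp : (one.sub (pt U.lo).sq).ps = true) :
    ρ ^ 2 * tt R I ^ 2 - sinh p ^ 2 ≤ ((wU rg U t : ℕ) : ℝ) / 1073741824 := by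
  have h1 := kU_sound hs k ht
  have h2 := sinh_ge hu hp
  have h3 : (kU rg t : ℝ) - ((sPt U.lo).lo : ℝ) ≤ ((Nat.sub (kU rg t) (sPt U.lo).lo : ℕ) : ℝ) :=
    le_nsub le_rfl
  have h4 : ((kU rg t : ℝ) - ((sPt U.lo).lo : ℝ)) / 1073741824 ≤
      ((wU rg U t : ℕ) : ℝ) / 1073741824 := div_le_div_of_nonneg_right h3 (by norm_num)
  rw [sub_div] at h4
  linarith

theorem i2_sound (hs : Slot R I ρ β p r) (c : 0 < cos r) (k : Kd so rg ρ β)
    (ht : Mem (tt R I ^ 2) t) (hu : Mem (tanh p) U) (hi : i2 rg U t = true) : False := by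
  unfold i2 at hi
  rw [Nat.ble_eq] at hi
  have h1 := wL_sound k ht hu (by omega)
  have h2 := (tan_sq_of hs c).2
  have h3 : (1073741824 : ℝ) ≤ ((wL rg U t : ℕ) : ℝ) := by exact_mod_cast hi
  have h4 : (1 : ℝ) ≤ ((wL rg U t : ℕ) : ℝ) / 1073741824 := by
    rw [le_div_iff₀ (by norm_num)]
    linarith
  linarith

theorem div_mono' {w s : ℝ} (hw : 0 ≤ w) (h : w ≤ s) (hs : s < 1) : w / (1 - w) ≤ s / (1 - s) := by
  rw [div_le_div_iff₀ (by linarith) (by linarith)]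
  nlinarith

/-- `tan² r ≥ q²`. -/
theorem qL_sound (hs : Slot R I ρ β p r) (c : 0 < cos r) (k : Kd so rg ρ β)
    (ht : Mem (tt R I ^ 2) t) (hu : Mem (tanh p) U) (hi : i2 rg U t = false) :
    (((qL rg U t : ℕ) : ℝ) / 1073741824) ^ 2 ≤ tan r ^ 2 := by
  obtain ⟨h1, h2⟩ := tan_sq_of hs c
  set s := ρ ^ 2 * tt R I ^ 2 - sinh p ^ 2 with hsd
  have hlt : wL rg U t < 1073741824 := by
    unfold i2 at hi
    by_contra hc
    push Not at hc
    rw [← Nat.ble_eq, hi] at hc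
    exact absurd hc (by decide)
  have hsq := sqd_sq (Nat.div (Nat.mul 1152921504606846976 (wL rg U t))
    (Nat.sub 1073741824 (wL rg U t)))
  have hsq' : ((qL rg U t : ℕ) : ℝ) ^ 2 ≤
      ((Nat.div (Nat.mul 1152921504606846976 (wL rg U t)) (Nat.sub 1073741824 (wL rg U t)) : ℕ) : ℝ) := by
    rw [sq]
    exact_mod_cast hsq
  rcases Nat.eq_zero_or_pos (wL rg U t) with h0 | h0
  · rw [h0] at hsq'
    have e : Nat.div (Nat.mul 1152921504606846976 0) (Nat.sub 1073741824 0) = 0 := by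
      show (1152921504606846976 * 0) / (1073741824 - 0) = 0
      simp
    rw [e, Nat.cast_zero] at hsq'
    have h3 : ((qL rg U t : ℕ) : ℝ) ^ 2 = 0 := le_antisymm hsq' (sq_nonneg _)
    rw [div_pow, h3, zero_div]
    exact sq_nonneg _
  · have h3 := wL_sound k ht hu h0
    rw [← hsd] at h3
    set w : ℝ := ((wL rg U t : ℕ) : ℝ) / 1073741824 with hw
    have hw0 : 0 ≤ w := by positivity
    have h4 := div_mono' hw0 h3 (by linarith)
    have h5 : tan r ^ 2 = s / (1 - s) := by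
      rw [eq_div_iff h2.ne']
      exact h1
    rw [h5]
    refine le_trans ?_ h4
    have h6 := nat_div_le (Nat.mul 1152921504606846976 (wL rg U t)) (Nat.sub 1073741824 (wL rg U t))
    have e1 : ((Nat.mul 1152921504606846976 (wL rg U t) : ℕ) : ℝ) =
        1152921504606846976 * ((wL rg U t : ℕ) : ℝ) := by
      show ((1152921504606846976 * wL rg U t : ℕ) : ℝ) = _
      push_cast
      ring
    have e2 : ((Nat.sub 1073741824 (wL rg U t) : ℕ) : ℝ) = 1073741824 - ((wL rg U t : ℕ) : ℝ) := by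
      show ((1073741824 - wL rg U t : ℕ) : ℝ) = _
      rw [Nat.cast_sub hlt.le]
      norm_num
    rw [e1, e2] at h6
    have h7 : (0 : ℝ) < 1073741824 - ((wL rg U t : ℕ) : ℝ) := by
      have : ((wL rg U t : ℕ) : ℝ) < 1073741824 := by exact_mod_cast hlt
      linarith
    have h8 : ((qL rg U t : ℕ) : ℝ) ^ 2 ≤ 1152921504606846976 * ((wL rg U t : ℕ) : ℝ) /
        (1073741824 - ((wL rg U t : ℕ) : ℝ)) := hsq'.trans h6
    have e3 : w / (1 - w) = (1152921504606846976 * ((wL rg U t : ℕ) : ℝ) /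
        (1073741824 - ((wL rg U t : ℕ) : ℝ))) / 1152921504606846976 := by
      rw [hw]
      have h9 : (1 : ℝ) - ((wL rg U t : ℕ) : ℝ) / 1073741824 ≠ 0 := by
        have : ((wL rg U t : ℕ) : ℝ) / 1073741824 < 1 := by
          rw [div_lt_one (by norm_num)]
          linarith
        linarith
      field_simp
    rw [e3, div_pow, div_le_div_iff₀ (by norm_num) (by norm_num)]
    have e4 : (1073741824 : ℝ) ^ 2 = 1152921504606846976 := by norm_num
    rw [e4]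
    exact mul_le_mul_of_nonneg_right h8 (by norm_num)

/-- `tan² r ≤ q²`. -/
theorem qU_sound (hs : Slot R I ρ β p r) (c : 0 < cos r) (k : Kd so rg ρ β)
    (ht : Mem (tt R I ^ 2) t) (hu : Mem (tanh p) U) (hp : (one.sub (pt U.lo).sq).ps = true)
    (hi : hq rg U t = true) : tan r ^ 2 ≤ (((qU rg U t : ℕ) : ℝ) / 1073741824) ^ 2 := by
  obtain ⟨h1, h2⟩ := tan_sq_of hs c
  have h3 := wU_sound hs k ht hu hp
  have hs0 : 0 ≤ ρ ^ 2 * tt R I ^ 2 - sinh p ^ 2 := by
    have := hs.sinh_sq_le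
    rw [mul_pow] at this
    linarith
  set s := ρ ^ 2 * tt R I ^ 2 - sinh p ^ 2 with hsd
  have hlt : wU rg U t < 1073741824 := by
    unfold hq at hi
    rw [Nat.ble_eq] at hi
    exact hi
  set w : ℝ := ((wU rg U t : ℕ) : ℝ) / 1073741824 with hw
  have hw1 : w < 1 := by
    rw [hw, div_lt_one (by norm_num)]
    exact_mod_cast hlt
  have h4 := div_mono' hs0 h3 hw1
  have h5 : tan r ^ 2 = s / (1 - s) := by
    rw [eq_div_iff h2.ne']
    exact h1
  rw [h5]
  refine h4.trans ?_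
  have hsq := squ_sq (Nat.succ (Nat.div (Nat.mul 1152921504606846976 (wU rg U t))
    (Nat.sub 1073741824 (wU rg U t))))
  have hsq' : ((Nat.succ (Nat.div (Nat.mul 1152921504606846976 (wU rg U t))
    (Nat.sub 1073741824 (wU rg U t))) : ℕ) : ℝ) ≤ ((qU rg U t : ℕ) : ℝ) ^ 2 := by
    rw [sq]
    exact_mod_cast hsq
  have hd0 : 0 < Nat.sub 1073741824 (wU rg U t) := by
    show 0 < 1073741824 - wU rg U t
    omega
  have h6 := le_succ_div (Nat.mul 1152921504606846976 (wU rg U t)) hd0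
  have e1 : ((Nat.mul 1152921504606846976 (wU rg U t) : ℕ) : ℝ) =
      1152921504606846976 * ((wU rg U t : ℕ) : ℝ) := by
    show ((1152921504606846976 * wU rg U t : ℕ) : ℝ) = _
    push_cast
    ring
  have e2 : ((Nat.sub 1073741824 (wU rg U t) : ℕ) : ℝ) = 1073741824 - ((wU rg U t : ℕ) : ℝ) := by
    show ((1073741824 - wU rg U t : ℕ) : ℝ) = _
    rw [Nat.cast_sub hlt.le]
    norm_num
  rw [e1, e2] at h6
  have h7 : (0 : ℝ) < 1073741824 - ((wU rg U t : ℕ) : ℝ) := by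
    have : ((wU rg U t : ℕ) : ℝ) < 1073741824 := by exact_mod_cast hlt
    linarith
  have h8 := h6.trans hsq'
  have e3 : w / (1 - w) = (1152921504606846976 * ((wU rg U t : ℕ) : ℝ) /
      (1073741824 - ((wU rg U t : ℕ) : ℝ))) / 1152921504606846976 := by
    rw [hw]
    have h9 : (1 : ℝ) - ((wU rg U t : ℕ) : ℝ) / 1073741824 ≠ 0 := by linarith
    field_simp
  rw [e3, div_pow, div_le_div_iff₀ (by norm_num) (by norm_num)]
  have e4 : (1073741824 : ℝ) ^ 2 = 1152921504606846976 := by norm_num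
  rw [e4]
  exact mul_le_mul_of_nonneg_right h8 (by norm_num)

end norm

/-! ### The bounds of `tan r` -/

def cL (a b q : ℕ) : Bool := Nat.ble (Nat.succ b) (Nat.add a q) && Nat.ble a (Nat.add q b)
def fa (a b q : ℕ) : ℕ := bif cL a b q then q else a
def fb (a b q : ℕ) : ℕ := bif cL a b q then 0 else b
def cU (c d q : ℕ) (h h' : Bool) : Bool := h' && (!h || Nat.ble (Nat.add q d) c)
def fc (c d q : ℕ) (h h' : Bool) : ℕ := bif cU c d q h h' then q else c
def fd (c d q : ℕ) (h h' : Bool) : ℕ := bif cU c d q h h' then 0 else d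

theorem fab_sound {a b q : ℕ} {y : ℝ} (h1 : (a : ℝ) / 1073741824 - (b : ℝ) / 1073741824 ≤ y)
    (h2 : ((q : ℝ) / 1073741824) ^ 2 ≤ y ^ 2) :
    ((fa a b q : ℕ) : ℝ) / 1073741824 - ((fb a b q : ℕ) : ℝ) / 1073741824 ≤ y := by
  unfold fa fb
  rcases h : cL a b q with _ | _
  · exact h1
  · simp only [cond_true]
    rw [Nat.cast_zero, zero_div, sub_zero]
    unfold cL at h
    rw [Bool.and_eq_true, Nat.ble_eq] at h
    have h3 : (b : ℝ) + 1 ≤ (a : ℝ) + q := by exact_mod_cast h.1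
    have h4 : -((q : ℝ) / 1073741824) < y := by
      refine lt_of_lt_of_le ?_ h1
      rw [← sub_div, ← neg_div]
      exact div_lt_div_of_pos_right (by linarith) (by norm_num)
    by_contra hc
    push Not at hc
    have hq0 : (0 : ℝ) ≤ (q : ℝ) / 1073741824 := by positivity
    nlinarith

theorem fcd_sound {c d q : ℕ} {h h' : Bool} {y : ℝ}
    (h1 : h = true → y ≤ (c : ℝ) / 1073741824 - (d : ℝ) / 1073741824)
    (h2 : h' = true → y ^ 2 ≤ ((q : ℝ) / 1073741824) ^ 2) (hh : (h || h') = true) :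
    y ≤ ((fc c d q h h' : ℕ) : ℝ) / 1073741824 - ((fd c d q h h' : ℕ) : ℝ) / 1073741824 := by
  unfold fc fd
  rcases hc : cU c d q h h' with _ | _
  · simp only [cond_false]
    apply h1
    unfold cU at hc
    cases h <;> cases h' <;> simp_all
  · simp only [cond_true]
    rw [Nat.cast_zero, zero_div, sub_zero]
    unfold cU at hc
    rw [Bool.and_eq_true] at hc
    have h3 := h2 hc.1
    exact (abs_le_of_sq_le_sq' h3 (by positivity)).2

end Pool.Agent.S5.E.V
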