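import Pool.Agent.S5.E.V.Goal

/-!
# Mixed chains, block E: box tests for `a = 3`, crude inputs
-/

set_option autoImplicit false

namespace Pool.Agent.S5.E.V

open Real
open Pool.Agent.S3.NI
open Pool.Agent.S5.E.B2 (Rg)

def gKF (k f : ℕ) (X M : N) : Bool := gKG k X M && gFU f X M

theorem gKF_sound {k f : ℕ} (X M : N) (h : gKF k f X M = true) (x m : ℝ) (hx : Mem x X)
    (hm : Mem m M) : ((k : ℝ) / 1000) ^ 2 < (1 + x ^ 2)⁻¹ + m ^ 2 * (1 - m ^ 2)⁻¹ ∧
      x * m < (f : ℝ) / 10000 := by
  unfold gKF at h
  rw [Bool.and_eq_true] at h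
  exact ⟨gKG_sound X M h.1 x m hx hm, gFU_sound X M h.2 x m hx hm⟩

/-- The crude region with the lower bound `0.525`. -/
def rC5 : Rg := ⟨525, 1100, 0, 1040, 0⟩

set_option maxRecDepth 100000 in
theorem r3SS : bbw3 (fun X M U => gKF 530 7770 X M || tM d3 true true rC rC X M U) 1 2 1 60
    XM MM UM = true := by decide +kernel

set_option maxRecDepth 100000 in
theorem r3SA : bbw3 (fun X M U => gKF 590 6270 X M || tM d3 true false rC rC X M U) 1 2 1 60
    XM MM UM = true := by decide +kernel

set_option maxRecDepth 100000 in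
theorem r3AA : bbw3 (fun X M U => gKF 590 6270 X M || tM d3 false false rC rC X M U) 1 2 1 60
    XM MM UM = true := by decide +kernel

set_option maxRecDepth 100000 in
theorem r3ES : bbw3 (fun X M _ => gKF 525 7770 X M || tE d3 true rC X M) 1 2 0 60
    XM MM one = true := by decide +kernel

set_option maxRecDepth 100000 in
theorem r3ES2 : bbw3 (fun X M _ => gKG 530 X M || tE d3 true rC5 X M) 1 2 0 60
    XM MM one = true := by decide +kernel

set_option maxRecDepth 100000 in
theorem r3EA : bbw3 (fun X M _ => gKF 590 6270 X M || tE d3 false rC X M) 1 2 0 60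
    XM MM one = true := by decide +kernel

end Pool.Agent.S5.E.V
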