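import Pool.Agent.S5.E.V.Ar

/-!
# Mixed chains, block E: box tests for `a ≥ 3`, one slot

`so = false`: an `A` slot (`β ≥ 0`), `so = true`: an `S` slot (`β ≤ 0`).
-/

set_option autoImplicit false
set_option maxHeartbeats 4000000

namespace Pool.Agent.S5.E.V

open Real
open Pool.Agent.S3.NI
open Pool.Agent.S5.E.B2 (Rg th mem_th)
open Pool.Agent.S3.E (al ph tt k2 s2 cc gg al_pos al_lt)

/-- The data of a slot. -/
structure Kd (so : Bool) (r : Rg) (ρ β : ℝ) : Prop where
  k0 : (r.k0 : ℝ) / 1000 ≤ ρ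
  k1 : ρ ≤ (r.k1 : ℝ) / 1000
  t0 : arctan ((r.t0 : ℝ) / 1000) ≤ (if so then -β else β)
  t1 : (if so then -β else β) ≤ arctan ((r.t1 : ℝ) / 1000)

section gam

variable {R I β t b : ℝ}

theorem gam_ge (hα : arctan t ≤ al R I) (hb : arctan b ≤ β) (h : t * b < 1)
    (g1 : al R I + β ≤ π / 2) :
    (t + b) / (1 - t * b) * cos (al R I + β) ≤ sin (al R I + β) := by
  have h1 := arctan_add h
  set Γ := (t + b) / (1 - t * b) with hΓ
  set γ := al R I + β with hγ
  have h2 : arctan Γ ≤ γ := by linarith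
  have h3 := neg_pi_div_two_lt_arctan Γ
  have h4 : 0 ≤ sin (γ - arctan Γ) :=
    sin_nonneg_of_nonneg_of_le_pi (by linarith) (by linarith)
  have hc := cos_arctan_pos Γ
  have h5 : sin (arctan Γ) = Γ * cos (arctan Γ) := by
    rw [← tan_mul_cos hc.ne', tan_arctan]
  rw [sin_sub, h5] at h4
  have h6 : 0 ≤ (sin γ - Γ * cos γ) * cos (arctan Γ) := by linarith
  have := nonneg_of_mul_nonneg_left h6 hc
  linarith

theorem gam_le (hα : al R I ≤ arctan t) (hb : β ≤ arctan b) (h : t * b < 1)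
    (g0 : -(π / 2) ≤ al R I + β) :
    sin (al R I + β) ≤ (t + b) / (1 - t * b) * cos (al R I + β) := by
  have h1 := arctan_add h
  set Γ := (t + b) / (1 - t * b) with hΓ
  set γ := al R I + β with hγ
  have h2 : γ ≤ arctan Γ := by linarith
  have h3 := arctan_lt_pi_div_two Γ
  have h4 : 0 ≤ sin (arctan Γ - γ) :=
    sin_nonneg_of_nonneg_of_le_pi (by linarith) (by linarith)
  have hc := cos_arctan_pos Γ
  have h5 : sin (arctan Γ) = Γ * cos (arctan Γ) := by
    rw [← tan_mul_cos hc.ne', tan_arctan]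
  rw [sin_sub, h5] at h4
  have h6 : 0 ≤ (Γ * cos γ - sin γ) * cos (arctan Γ) := by linarith
  have := nonneg_of_mul_nonneg_left h6 hc
  linarith

end gam

section slot

variable {R I ρ β p r : ℝ}

theorem tan_ge_of (hs : Slot R I ρ β p r) (c : 0 < cos r) {Γ : ℝ}
    (hΓ : Γ * cos (al R I + β) ≤ sin (al R I + β)) : Γ * tanh p ≤ tan r := by
  have h1 : Γ * sinh p * cos r ≤ cosh p * sin r := by
    rw [mul_assoc, hs.e1, hs.e2]
    have := mul_le_mul_of_nonneg_left hΓ hs.m0
    linarith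
  rw [tan_eq_sin_div_cos, tanh_eq_sinh_div_cosh, mul_div_assoc',
    div_le_div_iff₀ (cosh_pos p) c]
  linarith

theorem tan_le_of (hs : Slot R I ρ β p r) (c : 0 < cos r) {Γ : ℝ}
    (hΓ : sin (al R I + β) ≤ Γ * cos (al R I + β)) : tan r ≤ Γ * tanh p := by
  have h1 : cosh p * sin r ≤ Γ * sinh p * cos r := by
    rw [mul_assoc, hs.e1, hs.e2]
    have := mul_le_mul_of_nonneg_left hΓ hs.m0
    linarith
  rw [tan_eq_sin_div_cos, tanh_eq_sinh_div_cosh, mul_div_assoc',
    div_le_div_iff₀ c (cosh_pos p)]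
  linarith

/-- `tan² r = s / (1 - s)`, `s = ρ² |t|² - sinh² p`. -/
theorem tan_sq_of (hs : Slot R I ρ β p r) (c : 0 < cos r) :
    tan r ^ 2 * (1 - (ρ ^ 2 * tt R I ^ 2 - sinh p ^ 2)) = ρ ^ 2 * tt R I ^ 2 - sinh p ^ 2 ∧
      0 < 1 - (ρ ^ 2 * tt R I ^ 2 - sinh p ^ 2) := by
  have h1 := hs.norm_sq
  rw [mul_pow] at h1
  have h2 : ρ ^ 2 * tt R I ^ 2 - sinh p ^ 2 = sin r ^ 2 := by linarith
  have h3 := sin_sq_add_cos_sq r
  have h4 : 1 - sin r ^ 2 = cos r ^ 2 := by linarith
  rw [h2, h4, tan_eq_sin_div_cos]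
  constructor
  · field_simp
  · positivity

theorem sinh_sq_eq (p : ℝ) : sinh p ^ 2 = tanh p ^ 2 * (1 - tanh p ^ 2)⁻¹ := by
  have hc := cosh_pos p
  have h1 := cosh_sq p
  have h2 : 1 - tanh p ^ 2 = (cosh p ^ 2)⁻¹ := by
    rw [tanh_eq_sinh_div_cosh]
    field_simp
    linarith
  rw [h2, tanh_eq_sinh_div_cosh, inv_inv]
  field_simp

end slot

/-! ### The numbers -/

def lw (A D : N) (n : ℕ) : ℕ := ((A.mul D.inv).mul (pt n)).lo
def hw (A D : N) (n : ℕ) : ℕ := ((A.mul D.inv).mul (pt n)).hi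

/-- `tan r ≥ (gla - glb) / 2³⁰`. -/
def gla (so : Bool) (r : Rg) (T U : N) : ℕ :=
  bif so then lw ((pt T.lo).sub (th r.t1)) (one.add ((pt T.lo).mul (th r.t1))) U.lo
  else
    bif (one.sub ((pt T.lo).mul (th r.t0))).ps then
      lw ((pt T.lo).add (th r.t0)) (one.sub ((pt T.lo).mul (th r.t0))) U.lo
    else 0

def glb (so : Bool) (r : Rg) (T U : N) : ℕ :=
  bif so then hw ((th r.t1).sub (pt T.lo)) (one.add ((pt T.lo).mul (th r.t1))) U.hi
  else 0

/-- `tan r ≤ (guc - gud) / 2³⁰` if `guh`. -/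
def guc (so : Bool) (r : Rg) (T U : N) : ℕ :=
  bif so then hw ((pt T.hi).sub (th r.t0)) (one.add ((pt T.hi).mul (th r.t0))) U.hi
  else hw ((pt T.hi).add (th r.t1)) (one.sub ((pt T.hi).mul (th r.t1))) U.hi

def gud (so : Bool) (r : Rg) (T U : N) : ℕ :=
  bif so then lw ((th r.t0).sub (pt T.hi)) (one.add ((pt T.hi).mul (th r.t0))) U.lo
  else 0

def guh (so : Bool) (r : Rg) (T : N) : Bool :=
  so || (one.sub ((pt T.hi).mul (th r.t1))).ps

section mem

variable {R I ρ β p r : ℝ} {so : Bool} {rg : Rg} {T U : N}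

theorem Kd.sgn (k : Kd so rg ρ β) : (so = true → arctan (-((rg.t1 : ℝ) / 1000)) ≤ β ∧
    β ≤ arctan (-((rg.t0 : ℝ) / 1000))) ∧ (so = false → arctan ((rg.t0 : ℝ) / 1000) ≤ β ∧
    β ≤ arctan ((rg.t1 : ℝ) / 1000)) := by
  have h0 := k.t0
  have h1 := k.t1
  constructor
  · rintro rfl
    simp only [if_true] at h0 h1
    rw [arctan_neg, arctan_neg]
    constructor <;> linarith
  · rintro rfl
    simp only [Bool.false_eq_true, if_false] at h0 h1
    exact ⟨h0, h1⟩

theorem al_arctan {R I : ℝ} (h : 0 < R) (h' : R < π / 2) (hI : 0 < I) :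
    al R I = arctan (TT R I) := al_eq_arctan R I (al_pos h h' hI)

theorem max_sub (x y : ℝ) : max (x - y) 0 - max (y - x) 0 = x - y := by
  rcases le_total x y with h | h
  · rw [max_eq_right (by linarith), max_eq_left (by linarith)]
    ring
  · rw [max_eq_left (by linarith), max_eq_right (by linarith)]
    ring

theorem lw_le {x d y : ℝ} {A D : N} {n : ℕ} (h : Mem x A) (hd : Mem d D) (hp : D.ps = true)
    (hy : (n : ℝ) / 1073741824 ≤ y) : ((lw A D n : ℕ) : ℝ) / 1073741824 ≤ x * d⁻¹ * y := by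
  have h1 := h.mul (hd.inv hp)
  exact (lo_le (h1.mul (mem_pt n))).trans (mul_le_mul_of_nonneg_left hy h1.nonneg)

theorem le_hw {x d y : ℝ} {A D : N} {n : ℕ} (h : Mem x A) (hd : Mem d D) (hp : D.ps = true)
    (hy : y ≤ (n : ℝ) / 1073741824) : x * d⁻¹ * y ≤ ((hw A D n : ℕ) : ℝ) / 1073741824 := by
  have h1 := h.mul (hd.inv hp)
  exact (mul_le_mul_of_nonneg_left hy h1.nonneg).trans (le_hi (h1.mul (mem_pt n)))

private theorem S_eq (t b u : ℝ) : (t + -b) / (1 - t * -b) * u =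
    max (t - b) 0 * (1 + t * b)⁻¹ * u - max (b - t) 0 * (1 + t * b)⁻¹ * u := by
  have := max_sub t b
  rw [div_eq_mul_inv]
  have e4 : 1 - t * -b = 1 + t * b := by ring
  have e5 : t + -b = max (t - b) 0 - max (b - t) 0 := by rw [this]; ring
  rw [e4, e5]
  ring

private theorem pos_of_ps {t b : ℝ} {n m : ℕ} (m0 : Mem (max (1 - t * b) 0) (one.sub ((pt n).mul (th m))))
    (hps : (one.sub ((pt n).mul (th m))).ps = true) : 0 < 1 - t * b := by
  have := m0.pos hps
  by_contra hc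
  push Not at hc
  rw [max_eq_right hc] at this
  exact lt_irrefl _ this

theorem gl_true (hs : Slot R I ρ β p r) (h : 0 < R) (h' : R < π / 2) (hI : 0 < I)
    (c : 0 < cos r) (k : Kd true rg ρ β) (hu : Mem (tanh p) U) (hT : Mem (TT R I) T) :
    ((lw ((pt T.lo).sub (th rg.t1)) (one.add ((pt T.lo).mul (th rg.t1))) U.lo : ℕ) : ℝ) /
        1073741824 -
      ((hw ((th rg.t1).sub (pt T.lo)) (one.add ((pt T.lo).mul (th rg.t1))) U.hi : ℕ) : ℝ) /
        1073741824 ≤ tan r := by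
  have hal := al_arctan h h' hI
  have t0 := lo_le hT
  have u0 := lo_le hu
  have u1 := le_hi hu
  have mt := mem_pt T.lo
  set t : ℝ := (T.lo : ℝ) / 1073741824 with ht
  have htp : (0 : ℝ) ≤ t := by positivity
  have hα : arctan t ≤ al R I := by rw [hal]; exact arctan_mono t0
  obtain ⟨hb, -⟩ := k.sgn.1 rfl
  have mb := mem_th rg.t1
  set b : ℝ := (rg.t1 : ℝ) / 1000 with hbd
  have hbp : (0 : ℝ) ≤ b := by positivity
  have hΓ := gam_ge (t := t) (b := -b) hα hb (by nlinarith) hs.g1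
  have h1 := tan_ge_of hs c hΓ
  rw [S_eq] at h1
  have mD : Mem (1 + t * b) (one.add ((pt T.lo).mul (th rg.t1))) := mem_one.add (mt.mul mb)
  have e1 := lw_le (Pool.Agent.S5.E.B2.Mem.subp mt mb) mD (ps_one_add _) u0
  have e2 := le_hw (Pool.Agent.S5.E.B2.Mem.subp mb mt) mD (ps_one_add _) u1
  linarith

theorem gu_true (hs : Slot R I ρ β p r) (h : 0 < R) (h' : R < π / 2) (hI : 0 < I)
    (c : 0 < cos r) (k : Kd true rg ρ β) (hu : Mem (tanh p) U) (hT : Mem (TT R I) T) :
    tan r ≤ ((hw ((pt T.hi).sub (th rg.t0)) (one.add ((pt T.hi).mul (th rg.t0))) U.hi : ℕ) : ℝ) /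
        1073741824 -
      ((lw ((th rg.t0).sub (pt T.hi)) (one.add ((pt T.hi).mul (th rg.t0))) U.lo : ℕ) : ℝ) /
        1073741824 := by
  have hal := al_arctan h h' hI
  have t0 := le_hi hT
  have u0 := lo_le hu
  have u1 := le_hi hu
  have mt := mem_pt T.hi
  set t : ℝ := (T.hi : ℝ) / 1073741824 with ht
  have htp : (0 : ℝ) ≤ t := by positivity
  have hα : al R I ≤ arctan t := by rw [hal]; exact arctan_mono t0
  obtain ⟨-, hb⟩ := k.sgn.1 rfl
  have mb := mem_th rg.t0
  set b : ℝ := (rg.t0 : ℝ) / 1000 with hbd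
  have hbp : (0 : ℝ) ≤ b := by positivity
  have hΓ := gam_le (t := t) (b := -b) hα hb (by nlinarith) hs.g0
  have h1 := tan_le_of hs c hΓ
  rw [S_eq] at h1
  have mD : Mem (1 + t * b) (one.add ((pt T.hi).mul (th rg.t0))) := mem_one.add (mt.mul mb)
  have e1 := le_hw (Pool.Agent.S5.E.B2.Mem.subp mt mb) mD (ps_one_add _) u1
  have e2 := lw_le (Pool.Agent.S5.E.B2.Mem.subp mb mt) mD (ps_one_add _) u0
  linarith

theorem gl_false (hs : Slot R I ρ β p r) (h : 0 < R) (h' : R < π / 2) (hI : 0 < I)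
    (c : 0 < cos r) (k : Kd false rg ρ β) (hu : Mem (tanh p) U) (hT : Mem (TT R I) T)
    (hps : (one.sub ((pt T.lo).mul (th rg.t0))).ps = true) :
    ((lw ((pt T.lo).add (th rg.t0)) (one.sub ((pt T.lo).mul (th rg.t0))) U.lo : ℕ) : ℝ) /
        1073741824 ≤ tan r := by
  have hal := al_arctan h h' hI
  have t0 := lo_le hT
  have u0 := lo_le hu
  have mt := mem_pt T.lo
  set t : ℝ := (T.lo : ℝ) / 1073741824 with ht
  have hα : arctan t ≤ al R I := by rw [hal]; exact arctan_mono t0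
  obtain ⟨hb, -⟩ := k.sgn.2 rfl
  have mb := mem_th rg.t0
  set b : ℝ := (rg.t0 : ℝ) / 1000 with hbd
  have m0 : Mem (max (1 - t * b) 0) (one.sub ((pt T.lo).mul (th rg.t0))) :=
    Pool.Agent.S5.E.B2.Mem.subp mem_one (mt.mul mb)
  have hpos := pos_of_ps m0 hps
  have hΓ := gam_ge (t := t) (b := b) hα hb (by linarith) hs.g1
  have h1 := tan_ge_of hs c hΓ
  rw [max_eq_left hpos.le] at m0
  have e1 := lw_le (mt.add mb) m0 hps u0
  rw [div_eq_mul_inv] at h1
  exact e1.trans h1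

theorem gl_false' (hs : Slot R I ρ β p r) (h : 0 < R) (h' : R < π / 2) (hI : 0 < I)
    (c : 0 < cos r) (k : Kd false rg ρ β) : 0 ≤ tan r := by
  obtain ⟨hb, -⟩ := k.sgn.2 rfl
  have hbp : (0 : ℝ) ≤ (rg.t0 : ℝ) / 1000 := by positivity
  have hΓ := gam_ge (R := R) (I := I) (β := β) (t := 0) (b := 0)
    (by rw [arctan_zero]; exact (al_pos h h' hI).le)
    (by rw [arctan_zero]; exact (arctan_nonneg.2 hbp).trans hb) (by norm_num) hs.g1
  have h1 := tan_ge_of hs c hΓ
  norm_num at h1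
  exact h1

theorem gu_false (hs : Slot R I ρ β p r) (h : 0 < R) (h' : R < π / 2) (hI : 0 < I)
    (c : 0 < cos r) (k : Kd false rg ρ β) (hu : Mem (tanh p) U) (hT : Mem (TT R I) T)
    (hps : (one.sub ((pt T.hi).mul (th rg.t1))).ps = true) :
    tan r ≤ ((hw ((pt T.hi).add (th rg.t1)) (one.sub ((pt T.hi).mul (th rg.t1))) U.hi : ℕ) : ℝ) /
        1073741824 := by
  have hal := al_arctan h h' hI
  have t0 := le_hi hT
  have u1 := le_hi hu
  have mt := mem_pt T.hi
  set t : ℝ := (T.hi : ℝ) / 1073741824 with ht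
  have hα : al R I ≤ arctan t := by rw [hal]; exact arctan_mono t0
  obtain ⟨-, hb⟩ := k.sgn.2 rfl
  have mb := mem_th rg.t1
  set b : ℝ := (rg.t1 : ℝ) / 1000 with hbd
  have m0 : Mem (max (1 - t * b) 0) (one.sub ((pt T.hi).mul (th rg.t1))) :=
    Pool.Agent.S5.E.B2.Mem.subp mem_one (mt.mul mb)
  have hpos := pos_of_ps m0 hps
  have hΓ := gam_le (t := t) (b := b) hα hb (by linarith) hs.g0
  have h1 := tan_le_of hs c hΓ
  rw [max_eq_left hpos.le] at m0
  have e1 := le_hw (mt.add mb) m0 hps u1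
  rw [div_eq_mul_inv] at h1
  exact h1.trans e1

theorem gla_true : gla true rg T U =
    lw ((pt T.lo).sub (th rg.t1)) (one.add ((pt T.lo).mul (th rg.t1))) U.lo := by
  unfold gla
  exact cond_true _ _

theorem glb_true : glb true rg T U =
    hw ((th rg.t1).sub (pt T.lo)) (one.add ((pt T.lo).mul (th rg.t1))) U.hi := by
  unfold glb
  exact cond_true _ _

theorem glb_false : glb false rg T U = 0 := by
  unfold glb
  exact cond_false _ _

theorem gla_false (hps : (one.sub ((pt T.lo).mul (th rg.t0))).ps = true) : gla false rg T U =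
    lw ((pt T.lo).add (th rg.t0)) (one.sub ((pt T.lo).mul (th rg.t0))) U.lo := by
  unfold gla
  rw [hps]
  exact (cond_false _ _).trans (cond_true _ _)

theorem gla_false' (hps : (one.sub ((pt T.lo).mul (th rg.t0))).ps = false) :
    gla false rg T U = 0 := by
  unfold gla
  rw [hps]
  exact (cond_false _ _).trans (cond_false _ _)

theorem guc_true : guc true rg T U =
    hw ((pt T.hi).sub (th rg.t0)) (one.add ((pt T.hi).mul (th rg.t0))) U.hi := by
  unfold guc
  exact cond_true _ _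

theorem gud_true : gud true rg T U =
    lw ((th rg.t0).sub (pt T.hi)) (one.add ((pt T.hi).mul (th rg.t0))) U.lo := by
  unfold gud
  exact cond_true _ _

theorem gud_false : gud false rg T U = 0 := by
  unfold gud
  exact cond_false _ _

theorem guc_false : guc false rg T U =
    hw ((pt T.hi).add (th rg.t1)) (one.sub ((pt T.hi).mul (th rg.t1))) U.hi := by
  unfold guc
  exact cond_false _ _

theorem z0 : (((0 : ℕ) : ℕ) : ℝ) / 1073741824 = 0 := by norm_num

theorem gl_sound (hs : Slot R I ρ β p r) (h : 0 < R) (h' : R < π / 2) (hI : 0 < I)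
    (c : 0 < cos r) (k : Kd so rg ρ β) (hu : Mem (tanh p) U) (hT : Mem (TT R I) T) :
    ((gla so rg T U : ℕ) : ℝ) / 1073741824 - ((glb so rg T U : ℕ) : ℝ) / 1073741824 ≤ tan r := by
  cases so with
  | true =>
    rw [gla_true, glb_true]
    exact gl_true hs h h' hI c k hu hT
  | false =>
    rcases hps : (one.sub ((pt T.lo).mul (th rg.t0))).ps with _ | _
    · have := gl_false' hs h h' hI c k
      rw [gla_false' hps, glb_false, z0, sub_zero]
      exact this
    · have := gl_false hs h h' hI c k hu hT hps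
      rw [← gla_false hps] at this
      rw [glb_false, z0, sub_zero]
      exact this

theorem gu_sound (hs : Slot R I ρ β p r) (h : 0 < R) (h' : R < π / 2) (hI : 0 < I)
    (c : 0 < cos r) (k : Kd so rg ρ β) (hu : Mem (tanh p) U) (hT : Mem (TT R I) T)
    (hh : guh so rg T = true) :
    tan r ≤ ((guc so rg T U : ℕ) : ℝ) / 1073741824 - ((gud so rg T U : ℕ) : ℝ) / 1073741824 := by
  cases so with
  | true =>
    rw [guc_true, gud_true]
    exact gu_true hs h h' hI c k hu hT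
  | false =>
    unfold guh at hh
    rw [Bool.false_or] at hh
    have := gu_false hs h h' hI c k hu hT hh
    rw [← guc_false] at this
    rw [gud_false, z0, sub_zero]
    exact this

end mem


end Pool.Agent.S5.E.V
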