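import Pool.Agent.S5.E.V.Nm

/-!
# Mixed chains, block E: box tests for `a ≥ 3`
-/

set_option autoImplicit false
set_option maxHeartbeats 4000000

namespace Pool.Agent.S5.E.V

open Real
open Pool.Agent.S3.NI
open Pool.Agent.S5.E.B2 (Rg th mem_th)
open Pool.Agent.S3.E (al ph tt k2 s2 cc gg al_pos al_lt)

/-- The data of the multiplicity. -/
structure AD where
  tq : N → N
  sp : ℕ → ℕ
  sn : ℕ → ℕ
  cp : ℕ → ℕ
  cn : ℕ → ℕ
  xm : ℕ
  xp : ℕ
  xu : ℕ

/-- `x / 2³⁰` -/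
noncomputable def rx (x : ℕ) : ℝ := (x : ℝ) / 1073741824

structure AD.Ok (d : AD) (a : ℕ) : Prop where
  a3 : 3 ≤ a
  tq : ∀ (I : ℝ) (A : N), 0 ≤ I → Mem (tanh I) A → Mem (tanh (a * I)) (d.tq A)
  s : ∀ x : ℕ, sin (a * arctan (rx x)) * 1073741824 ^ a =
    cos (arctan (rx x)) ^ a * (((d.sp x : ℕ) : ℝ) - ((d.sn x : ℕ) : ℝ))
  c : ∀ x : ℕ, cos (a * arctan (rx x)) * 1073741824 ^ a =
    cos (arctan (rx x)) ^ a * (((d.cp x : ℕ) : ℝ) - ((d.cn x : ℕ) : ℝ))
  xm : ∀ x : ℕ, d.xm ≤ x → π / 2 ≤ a * arctan (rx x)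
  xp : ∀ x : ℕ, x ≤ d.xp → a * arctan (rx x) ≤ π
  xu : ∀ x : ℕ, x ≤ d.xu → a * arctan (rx x) ≤ 3 * π / 2

/-! ### The angle test -/

def pA (a1 b1 a2 b2 : ℕ) : ℕ :=
  Nat.add 1152921504606846976 (Nat.add (Nat.mul a1 b2) (Nat.mul a2 b1))
def pB (a1 b1 a2 b2 : ℕ) : ℕ := Nat.add (Nat.mul a1 a2) (Nat.mul b1 b2)
def pC (a1 a2 : ℕ) : ℕ := Nat.mul 1073741824 (Nat.add a1 a2)

def pL (d : AD) (a1 b1 a2 b2 x : ℕ) : ℕ :=
  Nat.add (Nat.add (Nat.mul (pA a1 b1 a2 b2) (d.sp x)) (Nat.mul (pB a1 b1 a2 b2) (d.sn x)))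
    (Nat.add (Nat.mul (pC a1 a2) (d.cp x)) (Nat.mul (pC b1 b2) (d.cn x)))
def pR (d : AD) (a1 b1 a2 b2 x : ℕ) : ℕ :=
  Nat.add (Nat.add (Nat.mul (pA a1 b1 a2 b2) (d.sn x)) (Nat.mul (pB a1 b1 a2 b2) (d.sp x)))
    (Nat.add (Nat.mul (pC a1 a2) (d.cn x)) (Nat.mul (pC b1 b2) (d.cp x)))

theorem nadd (a b : ℕ) : ((Nat.add a b : ℕ) : ℝ) = a + b := Nat.cast_add a b
theorem nmul (a b : ℕ) : ((Nat.mul a b : ℕ) : ℝ) = a * b := Nat.cast_mul a b

theorem pA_cast (a1 b1 a2 b2 : ℕ) : ((pA a1 b1 a2 b2 : ℕ) : ℝ) =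
    1152921504606846976 + ((a1 : ℝ) * b2 + a2 * b1) := by
  unfold pA
  rw [nadd, nadd, nmul, nmul]
  norm_num

theorem pB_cast (a1 b1 a2 b2 : ℕ) : ((pB a1 b1 a2 b2 : ℕ) : ℝ) = (a1 : ℝ) * a2 + b1 * b2 := by
  unfold pB
  rw [nadd, nmul, nmul]

theorem pC_cast (a1 a2 : ℕ) : ((pC a1 a2 : ℕ) : ℝ) = 1073741824 * ((a1 : ℝ) + a2) := by
  unfold pC
  rw [nmul, nadd]
  norm_num

theorem pLR (d : AD) (a1 b1 a2 b2 x : ℕ) :
    ((pL d a1 b1 a2 b2 x : ℕ) : ℝ) - ((pR d a1 b1 a2 b2 x : ℕ) : ℝ) =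
      (1152921504606846976 - ((a1 : ℝ) - b1) * ((a2 : ℝ) - b2)) *
          (((d.sp x : ℕ) : ℝ) - ((d.sn x : ℕ) : ℝ)) +
        1073741824 * (((a1 : ℝ) - b1) + ((a2 : ℝ) - b2)) *
          (((d.cp x : ℕ) : ℝ) - ((d.cn x : ℕ) : ℝ)) := by
  unfold pL pR
  rw [nadd, nadd, nadd, nmul, nmul, nmul, nmul, nadd, nadd, nadd, nmul, nmul, nmul, nmul, pA_cast,
    pB_cast, pC_cast, pC_cast]
  ring

theorem sin3 (L₁ L₂ θ : ℝ) : sin (arctan L₁ + arctan L₂ + θ) =
    cos (arctan L₁) * cos (arctan L₂) * ((1 - L₁ * L₂) * sin θ + (L₁ + L₂) * cos θ) := by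
  have h : ∀ L : ℝ, sin (arctan L) = L * cos (arctan L) := by
    intro L
    rw [← tan_mul_cos (cos_arctan_pos L).ne', tan_arctan]
  rw [sin_add, sin_add, cos_add, h, h]
  ring

theorem sin_pLR {d : AD} {a : ℕ} (hd : d.Ok a) (a1 b1 a2 b2 x : ℕ) :
    sin (arctan (rx a1 - rx b1) + arctan (rx a2 - rx b2) + a * arctan (rx x)) *
        1073741824 ^ (a + 2) =
      cos (arctan (rx a1 - rx b1)) * cos (arctan (rx a2 - rx b2)) * cos (arctan (rx x)) ^ a *
        (((pL d a1 b1 a2 b2 x : ℕ) : ℝ) - ((pR d a1 b1 a2 b2 x : ℕ) : ℝ)) := by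
  rw [pLR, sin3]
  have h1 := hd.s x
  have h2 := hd.c x
  have e : (1073741824 : ℝ) ^ (a + 2) = 1073741824 ^ a * 1152921504606846976 := by
    rw [pow_add]
    norm_num
  rw [e]
  set C₁ := cos (arctan (rx a1 - rx b1))
  set C₂ := cos (arctan (rx a2 - rx b2))
  set s := sin (a * arctan (rx x))
  set c := cos (a * arctan (rx x))
  have e1 : C₁ * C₂ * ((1 - (rx a1 - rx b1) * (rx a2 - rx b2)) * s +
      (rx a1 - rx b1 + (rx a2 - rx b2)) * c) * (1073741824 ^ a * 1152921504606846976) =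
      C₁ * C₂ * ((1152921504606846976 * (1 - (rx a1 - rx b1) * (rx a2 - rx b2))) *
        (s * 1073741824 ^ a) +
      (1152921504606846976 * (rx a1 - rx b1 + (rx a2 - rx b2))) * (c * 1073741824 ^ a)) := by ring
  rw [e1, h1, h2]
  have e2 : 1152921504606846976 * (1 - (rx a1 - rx b1) * (rx a2 - rx b2)) =
      1152921504606846976 - ((a1 : ℝ) - b1) * ((a2 : ℝ) - b2) := by
    unfold rx
    ring
  have e3 : 1152921504606846976 * (rx a1 - rx b1 + (rx a2 - rx b2)) =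
      1073741824 * (((a1 : ℝ) - b1) + ((a2 : ℝ) - b2)) := by
    unfold rx
    ring
  rw [e2, e3]
  ring

theorem r_ge_arctan {r y : ℝ} (h0 : -(π / 2) < r) (h1 : r < π / 2) (h : y ≤ tan r) : arctan y ≤ r := by
  have := arctan_mono h
  rwa [arctan_tan h0 h1] at this

theorem r_le_arctan {r y : ℝ} (h0 : -(π / 2) < r) (h1 : r < π / 2) (h : tan r ≤ y) : r ≤ arctan y := by
  have := arctan_mono h
  rwa [arctan_tan h0 h1] at this

/-- The test `π = a R + r₁ + r₂`, lower bounds. -/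
theorem low_sound {d : AD} {a : ℕ} (hd : d.Ok a) {a1 b1 a2 b2 x : ℕ} {R r₁ r₂ : ℝ}
    (h1 : arctan (rx a1 - rx b1) ≤ r₁) (h2 : arctan (rx a2 - rx b2) ≤ r₂)
    (hx : arctan (rx x) ≤ R) (hR : a * R + r₁ + r₂ = π)
    (hc : (b1 = 0 ∧ b2 = 0) ∨ (d.xm ≤ x ∧ b1 ≤ 1073741824 ∧ b2 ≤ 1073741824))
    (hlt : pL d a1 b1 a2 b2 x < pR d a1 b1 a2 b2 x) : False := by
  have ha : (0 : ℝ) ≤ a := Nat.cast_nonneg a
  have h3 := mul_le_mul_of_nonneg_left hx ha
  have hx0 : 0 ≤ a * arctan (rx x) := mul_nonneg ha (arctan_nonneg.2 (by unfold rx; positivity))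
  have h0 : 0 ≤ arctan (rx a1 - rx b1) + arctan (rx a2 - rx b2) + a * arctan (rx x) := by
    rcases hc with ⟨rfl, rfl⟩ | ⟨k1, k2, k3⟩
    · have e : rx 0 = 0 := by unfold rx; norm_num
      rw [e, sub_zero, sub_zero]
      have := arctan_nonneg.2 (show 0 ≤ rx a1 by unfold rx; positivity)
      have := arctan_nonneg.2 (show 0 ≤ rx a2 by unfold rx; positivity)
      linarith
    · have h4 := hd.xm x k1
      have key : ∀ p q : ℕ, q ≤ 1073741824 → -(π / 4) ≤ arctan (rx p - rx q) := by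
        intro p q hq
        have h5 : -1 ≤ rx p - rx q := by
          have h6 : rx q ≤ 1 := by
            unfold rx
            rw [div_le_one (by norm_num)]
            exact_mod_cast hq
          have h7 : 0 ≤ rx p := by unfold rx; positivity
          linarith
        have h8 := arctan_mono h5
        rw [arctan_neg, arctan_one] at h8
        exact h8
      have := key a1 b1 k2
      have := key a2 b2 k3
      linarith
  have h5 := sin_nonneg_of_nonneg_of_le_pi h0 (by linarith)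
  have h6 := sin_pLR hd a1 b1 a2 b2 x
  have h7 : ((pL d a1 b1 a2 b2 x : ℕ) : ℝ) - ((pR d a1 b1 a2 b2 x : ℕ) : ℝ) < 0 := by
    have : ((pL d a1 b1 a2 b2 x : ℕ) : ℝ) < ((pR d a1 b1 a2 b2 x : ℕ) : ℝ) := by exact_mod_cast hlt
    linarith
  have h8 : 0 < cos (arctan (rx a1 - rx b1)) * cos (arctan (rx a2 - rx b2)) *
      cos (arctan (rx x)) ^ a :=
    mul_pos (mul_pos (cos_arctan_pos _) (cos_arctan_pos _)) (pow_pos (cos_arctan_pos _) _)
  have h9 := mul_neg_of_pos_of_neg h8 h7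
  rw [← h6] at h9
  have h10 : 0 ≤ sin (arctan (rx a1 - rx b1) + arctan (rx a2 - rx b2) + a * arctan (rx x)) *
        1073741824 ^ (a + 2) := mul_nonneg h5 (by positivity)
  linarith

/-- The test `π = a R + r₁ + r₂`, upper bounds. -/
theorem upp_sound {d : AD} {a : ℕ} (hd : d.Ok a) {c1 d1 c2 d2 x : ℕ} {R r₁ r₂ : ℝ}
    (h1 : r₁ ≤ arctan (rx c1 - rx d1)) (h2 : r₂ ≤ arctan (rx c2 - rx d2))
    (hx : R ≤ arctan (rx x)) (hR : a * R + r₁ + r₂ = π)
    (hc : x ≤ d.xp ∨ (c1 * c2 ≤ 1152921504606846976 ∧ x ≤ d.xu))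
    (hlt : pR d c1 d1 c2 d2 x < pL d c1 d1 c2 d2 x) : False := by
  have ha : (0 : ℝ) ≤ a := Nat.cast_nonneg a
  have h3 := mul_le_mul_of_nonneg_left hx ha
  have h0 : arctan (rx c1 - rx d1) + arctan (rx c2 - rx d2) + a * arctan (rx x) ≤ 2 * π := by
    rcases hc with k1 | ⟨k1, k2⟩
    · have := hd.xp x k1
      have := arctan_lt_pi_div_two (rx c1 - rx d1)
      have := arctan_lt_pi_div_two (rx c2 - rx d2)
      linarith
    · have h4 := hd.xu x k2
      have key : arctan (rx c1) + arctan (rx c2) ≤ π / 2 := by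
        rcases Nat.eq_zero_or_pos c1 with h5 | h5
        · have e : rx c1 = 0 := by rw [h5]; unfold rx; norm_num
          rw [e, arctan_zero]
          linarith [arctan_lt_pi_div_two (rx c2)]
        · have h6 : 0 < rx c1 := by
            unfold rx
            have : (0 : ℝ) < c1 := by exact_mod_cast h5
            positivity
          have h7 : rx c2 ≤ (rx c1)⁻¹ := by
            rw [← one_div, le_div_iff₀ h6]
            have h9 : ((c1 : ℝ) * c2) ≤ 1152921504606846976 := by exact_mod_cast k1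
            unfold rx
            have e : (c2 : ℝ) / 1073741824 * ((c1 : ℝ) / 1073741824) =
                ((c1 : ℝ) * c2) / 1152921504606846976 := by ring
            rw [e, div_le_one (by norm_num)]
            exact h9
          have h8 := arctan_mono h7
          rw [arctan_inv_of_pos h6] at h8
          linarith
      have k3 : arctan (rx c1 - rx d1) ≤ arctan (rx c1) := by
        apply arctan_mono
        have : 0 ≤ rx d1 := by unfold rx; positivity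
        linarith
      have k4 : arctan (rx c2 - rx d2) ≤ arctan (rx c2) := by
        apply arctan_mono
        have : 0 ≤ rx d2 := by unfold rx; positivity
        linarith
      linarith
  set ψ := arctan (rx c1 - rx d1) + arctan (rx c2 - rx d2) + a * arctan (rx x) with hψ
  have h5 : sin ψ ≤ 0 := by
    have : 0 ≤ sin (ψ - π) := sin_nonneg_of_nonneg_of_le_pi (by linarith) (by linarith)
    rw [sin_sub_pi] at this
    linarith
  have h6 := sin_pLR hd c1 d1 c2 d2 x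
  rw [← hψ] at h6
  have h7 : 0 < ((pL d c1 d1 c2 d2 x : ℕ) : ℝ) - ((pR d c1 d1 c2 d2 x : ℕ) : ℝ) := by
    have : ((pR d c1 d1 c2 d2 x : ℕ) : ℝ) < ((pL d c1 d1 c2 d2 x : ℕ) : ℝ) := by exact_mod_cast hlt
    linarith
  have h8 : 0 < cos (arctan (rx c1 - rx d1)) * cos (arctan (rx c2 - rx d2)) *
      cos (arctan (rx x)) ^ a :=
    mul_pos (mul_pos (cos_arctan_pos _) (cos_arctan_pos _)) (pow_pos (cos_arctan_pos _) _)
  have h9 := mul_pos h8 h7
  rw [← h6] at h9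
  have h10 : sin ψ * 1073741824 ^ (a + 2) ≤ 0 :=
    mul_nonpos_of_nonpos_of_nonneg h5 (by positivity)
  linarith

end Pool.Agent.S5.E.V
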